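import Pool.Agent.P8H28.AT.Fin

/-!
# Comparison of the definitions
-/

set_option autoImplicit false
set_option linter.unusedSectionVars false

open CategoryTheory AlgebraicGeometry

universe u

namespace Pool.Agent.P8H28.AT

open Module
open Pool.Agent.H914 Pool.Agent.H914.VarClass Pool.Agent.H914.VarClass.Obj
  Pool.Agent.H914.WeilCohomology
open Pool.Agent.Y121 Pool.Agent.Y121.AHS Pool.Agent.N996.FP
open Pool.Agent.Y133.Half (pw)

variable {k : Type u} [Field k] {𝒱 : VarClass k} {ops : CycleOps 𝒱} {T : HodgeTheory ops}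
  {X : 𝒱.Obj}

section Ext

open TensorProduct
open Pool.Agent.N996.BP (Bil extConj extBil)

variable {K A : Type} [Field K] [Algebra K ℂ] [Ring A] [Algebra K A]

/-- The bilinear form `tr (x * f y)`. -/
noncomputable def bilOf (tr : A →ₗ[K] K) (f : A →ₗ[K] A) : Bil K A :=
  LinearMap.mk₂ K (fun a b => tr (a * f b))
    (fun a a' b => by rw [add_mul, map_add])
    (fun c a b => by rw [smul_mul_assoc, map_smul])
    (fun a b b' => by rw [map_add, mul_add, map_add])
    (fun c a b => by rw [map_smul, mul_smul_comm, map_smul])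

lemma bilOf_apply (tr : A →ₗ[K] K) (f : A →ₗ[K] A) (a b : A) :
    bilOf tr f a b = tr (a * f b) := rfl

lemma extBil_eq (tr : A →ₗ[K] K) (f : A →ₗ[K] A) (x y : Ext K ℂ A) :
    extBil (bilOf tr f) x y = form tr f x y := by
  change (LinearMap.BilinForm.baseChange ℂ (bilOf tr f) : LinearMap.BilinForm ℂ (ℂ ⊗[K] A))
    (show ℂ ⊗[K] A from x) (show ℂ ⊗[K] A from y) =
      TensorProduct.AlgebraTensorModule.rid K ℂ ℂ (tr.baseChange ℂ
        ((show ℂ ⊗[K] A from x) * f.baseChange ℂ (show ℂ ⊗[K] A from y)))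
  generalize (show ℂ ⊗[K] A from x) = x'
  generalize (show ℂ ⊗[K] A from y) = y'
  induction x' using TensorProduct.induction_on with
  | zero => rw [map_zero, LinearMap.zero_apply, zero_mul, map_zero, map_zero]
  | add a b ha hb => rw [map_add, LinearMap.add_apply, ha, hb, add_mul, map_add, map_add]
  | tmul z a =>
    induction y' using TensorProduct.induction_on with
    | zero => rw [map_zero, map_zero, mul_zero, map_zero, map_zero]
    | add c d hc hd => rw [map_add, map_add, mul_add, map_add, map_add, hc, hd]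
    | tmul w b =>
      rw [LinearMap.BilinForm.baseChange_tmul, LinearMap.baseChange_tmul,
        Algebra.TensorProduct.tmul_mul_tmul, LinearMap.baseChange_tmul,
        TensorProduct.AlgebraTensorModule.rid_tmul, bilOf_apply]

end Ext

lemma isPolarisation_of {f : T.W.H X →ₗ[T.W.K] T.W.H X}
    (h : Polarises (T.W.tr X) f T.rat (IsType T.pq (X := X)) X.dim) :
    IsPolarisation T X (bilOf (T.W.tr X) f) where
  range p q x hx h0 := (h.pos p q x hx h0).1
  conj p q x hx := h.conj p q x hx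
  orth p q r s x y hx hy hne := (extBil_eq _ _ _ _).trans (h.orth p q r s x y hx hy hne)
  pos p q x hx h0 := by
    obtain ⟨r, hr, h1⟩ := (h.pos p q x hx h0).2
    refine ⟨r, hr, ?_⟩
    rw [← h1]
    exact congrArg _ (extBil_eq _ _ _ _)

lemma exists_adm {t N : ℕ} (h : IsExp (T.W.tr X) T.rat (IsType T.pq (X := X)) X.dim t N) :
    ∃ ψ : RForm T.W X, IsPolarisation T X ψ ∧ AdmT T X ψ t N := by
  obtain ⟨f, h1, h2⟩ := h
  refine ⟨_, isPolarisation_of h1, ?_⟩
  rcases h2 with ⟨h2, h3⟩ | ⟨h2, h3⟩ | h2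
  · exact Or.inl ⟨fun g hg c d => h2 g hg c d, h3⟩
  · exact Or.inr (Or.inl ⟨fun g hg F hF => h2 g hg F hF, h3⟩)
  · exact Or.inr (Or.inr h2)

lemma dimSpan_true : dimSpan T.W X (fun _ _ => True) = betti T X := by
  have h1 : {c : T.W.H X | ∃ _ : ℕ, True} = Set.univ := by
    ext c
    simp
  change Set.finrank T.W.K {c : T.W.H X | ∃ _ : ℕ, True} = _
  rw [h1]
  change finrank T.W.K (Submodule.span T.W.K (Set.univ : Set (T.W.H X))) = _
  rw [Submodule.span_univ, finrank_top]
  rfl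

lemma transBetti_eq_of {t : ℕ} (h : betti T X = dimSpan T.W X (IsHodge T X) + t) :
    t = transBetti T X := by
  have hfin : Module.Finite T.W.K (T.W.H X) := (toH T).W.finite X
  have h1 : transBetti T X + dimSpan T.W X (IsHodge T X) = betti T X :=
    Submodule.finrank_quotient_add_finrank _
  omega

lemma upToSign_of {D : Full.Conjugates T} {i : D.ι} {ε : D.J i → ℤˣ} {j : ℕ}
    (h : Full.UpToSign D i ε X j) : UpToSign D i ε X j := by
  intro c hc
  obtain ⟨c₀, c₁, h₀, h₁, hm⟩ := h c hc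
  refine ⟨fun s => c₀ + s • c₁, fun s => ?_, hm⟩
  change IsHodge (D.T' i) X j (c₀ + s • c₁)
  rcases Int.units_eq_one_or s with he | he
  · rw [he, one_smul]
    exact (AH.hodgePred (AHS.toH (D.T' i))).add h₀ h₁
  · rw [he, Units.neg_smul, one_smul, ← neg_one_smul (D.T' i).W.K c₁]
    exact (AH.hodgePred (AHS.toH (D.T' i))).add h₀
      ((AH.hodgePred (AHS.toH (D.T' i))).smul _ h₁)

/-- **The main theorem.** -/
theorem fin (T : HodgeTheory ops) (D : Full.Conjugates T) (X : 𝒱.Obj) (b t N C : ℕ)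
    (hb : b = dimSpan T.W X fun _ _ => True) (ht : b = dimSpan T.W X (IsHodge T X) + t)
    (hN : IsExp (T.W.tr X) T.rat (IsType T.pq (X := X)) X.dim t N) (hC : C = 8 * (N + 3) * b ^ (N + 5))
    (h a : ℕ → ℕ) (hh : ∀ n, h n = dimSpan T.W _ (IsHodge T (pw X n)))
    (ha : ∀ n, a n = dimSpan T.W _ (Full.IsAbsHodge D (pw X n))) :
    (∀ n, FromPowersAbs D X (pw X n)) ∧
    (AbsHodgeIn D (pw X (N - 1)) (N * X.dim / 2) →
      ∀ Y, FromPowersAbs D X Y → ∀ j, AbsHodgeIn D Y j) ∧
    ((∀ Y, FromPowersAbs D X Y → ∀ j, AbsHodgeIn D Y j) ∨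
      ∀ n : ℕ, 0 < n → (2 - C * Real.log (n + 2) / n) * a n ≤ h n) ∧
    (AllPrimes D →
      (∀ i, ∃ ε : D.J i → ℤˣ, ∀ Y, FromPowersAbs D X Y → ∀ j, UpToSign D i ε Y j) ∨
        ∀ n : ℕ, 0 < n → (3 - C * Real.log (n + 2) / n) * a n ≤ h n) := by
  rw [dimSpan_true] at hb
  subst hb
  obtain rfl := transBetti_eq_of ht
  obtain rfl : h = fun n => hodgeDim T (pw X n) := funext hh
  obtain rfl : a = fun n => Full.absDim D (pw X n) := funext ha
  obtain ⟨ψ, hψ, hN'⟩ := exists_adm hN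
  obtain ⟨h1, h2, h3, h4⟩ := main T D X ψ hψ N C hN' hC
  refine ⟨h1, h2, h3, fun hD => ?_⟩
  rcases h4 hD with h5 | h5
  · left
    intro i
    obtain ⟨ε, hε⟩ := h5 i
    exact ⟨ε, fun Y hY j => upToSign_of (hε Y hY j)⟩
  · exact Or.inr h5

end Pool.Agent.P8H28.AT
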