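import Pool.Agent.P8H28.AT.Step
import Pool.Agent.Y133.Half.Growth
import Pool.Agent.Y163.Eff

/-!
# Effective lower bounds
-/

set_option linter.unusedSectionVars false

open CategoryTheory AlgebraicGeometry

universe u v

namespace Pool.Agent.P8H28.AT

open Module
open Pool.Agent.H914 Pool.Agent.H914.VarClass Pool.Agent.H914.VarClass.Obj
  Pool.Agent.H914.WeilCohomology
open Pool.Agent.Y133.Half Pool.Agent.Y133.Half.Sys

variable {k : Type u} [Field k] {𝒱 : VarClass k} {ops : CycleOps 𝒱}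
  {W : WeilCohomology.{u, v} ops} {S : Sys W} {P P₀ Q Z X : 𝒱.Obj}

/-- The part cut out by an idempotent of arbitrary rank. -/
lemma r_ge {g : Module.End W.K (W.H P)} (hg : g ∈ S.Op P P) (hgg : g ∘ₗ g = g) (Y : 𝒱.Obj) :
    S.a ((P.prod P₀).prod (Y.prod Y)) +
        finrank W.K (LinearMap.range g) * finrank W.K (W.H P₀) * S.a (Y.prod Y) ≤
      S.r P g (P₀.prod (Y.prod Y)) +
        finrank W.K (W.H P) * finrank W.K (W.H P₀) * S.a (Y.prod Y) := by
  set G : Module.End W.K (W.H (P.prod P₀)) := extOp W g 1 with hG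
  have hGm : G ∈ S.Op (P.prod P₀) (P.prod P₀) := Op.ext hg Op.id
  have h11 : (1 : Module.End W.K (W.H P₀)) ∘ₗ 1 = 1 := rfl
  have hGG : G * G = G := by
    rw [hG, extOp_mul, mul_one]
    change extOp W (g ∘ₗ g) 1 = _
    rw [hgg]
  obtain ⟨hG', h5⟩ := finrank_compl (P := P.prod P₀) (g := G) hGG
  have h1 := S.r_add_le (Z := Y.prod Y) G (1 - G)
  rw [add_sub_cancel, r_one] at h1
  have h2 := S.r_le_rank (g := 1 - G) (Submodule.sub_mem _ Op.id hGm) hG' Y
  have h3 : S.r (P.prod P₀) G (Y.prod Y) = S.r P g (P₀.prod (Y.prod Y)) := S.r_assoc g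
  have h4 : finrank W.K (LinearMap.range G) = finrank W.K (LinearMap.range g) *
      finrank W.K (W.H P₀) := by
    rw [hG, finrank_extOp hgg h11, rank_one]
  rw [Pool.Agent.Y133.Half.finrank_prod, h4] at h5
  rw [h3] at h1
  have h8 : finrank W.K (LinearMap.range (1 - G)) * S.a (Y.prod Y) +
      finrank W.K (LinearMap.range g) * finrank W.K (W.H P₀) * S.a (Y.prod Y) =
        finrank W.K (W.H P) * finrank W.K (W.H P₀) * S.a (Y.prod Y) := by
    rw [← add_mul, h5]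
  omega

/-- The number of classes if the pairing is perfect. -/
lemma a_eq (h : S.Num Z = ⊥) : S.a Z = finrank W.K (S.C Z) := by
  have h1 := S.a_add_num Z
  rwa [h, finrank_bot, add_zero] at h1

lemma a_le_H (Z : 𝒱.Obj) : S.a Z ≤ finrank W.K (W.H Z) := by
  have h := S.rk_F_le (Z := Z) 1
  rwa [rank_one] at h

/-- The error term. -/
noncomputable def err (b j l : ℕ) : ℝ :=
  j * ((b : ℝ) ^ 2) ^ j * (b : ℝ) ^ 2 * Real.log (l + 2) / l

lemma err_nonneg (b j l : ℕ) : 0 ≤ err b j l := by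
  unfold err
  have : 0 ≤ Real.log ((l : ℝ) + 2) := Real.log_nonneg (by
    have : (0 : ℝ) ≤ l := Nat.cast_nonneg _
    linarith)
  positivity

/-- The ratios of the sequence. -/
lemma al_ratio (hX : 0 < finrank W.K (W.H X)) (hN : ∀ n, S.Num ((pw X n).prod (pw X n)) = ⊥)
    {j : ℕ} (hj : 0 < j) {l : ℕ} (hl : 0 < l) :
    (((finrank W.K (W.H X) : ℝ) ^ 2) ^ j - err (finrank W.K (W.H X)) j l) * S.al X l ≤
      S.al X (l + j) := by
  obtain ⟨κ, rfl⟩ : ∃ κ, j = κ + 1 := ⟨j - 1, by omega⟩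
  set b := finrank W.K (W.H X) with hb
  have h0 : S.al X 0 ≤ b ^ 2 := by
    refine (a_le_H _).trans (le_of_eq ?_)
    rw [Pool.Agent.Y133.Half.finrank_prod, finrank_pw]
    ring
  have h3 : ∀ n, (b ^ 2) ^ (n + 1) ≤ S.al X n * (n + 2) ^ (b ^ 2) := by
    intro n
    have h := S.growth X n
    rw [← a_eq (hN n)] at h
    rw [← pow_mul]
    exact h
  have hconv : ∀ n, S.al X (n + 1) ^ 2 ≤ S.al X n * S.al X (n + 2) := by
    intro n
    rw [mul_comm]
    exact S.al_convex X n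
  have hb2 : 0 < b ^ 2 := by positivity
  have h := Pool.Agent.Y163.eta_le (α := S.al X) (b := b ^ 2) (e := b ^ 2) hb2 h0 hconv h3 κ hl
  have hpos : 0 < S.al X l := by
    apply Nat.pos_of_ne_zero
    intro h0
    have := h3 l
    rw [h0, zero_mul] at this
    exact absurd (pow_pos hb2 (l + 1)) (by omega)
  have hpos' : (0 : ℝ) < S.al X l := by exact_mod_cast hpos
  have h6 : err b (κ + 1) l =
      (κ + 1) * ((b ^ 2 : ℕ) : ℝ) ^ (κ + 1) * ((b ^ 2 : ℕ) : ℝ) * Real.log (l + 2) / l := by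
    unfold err
    push_cast
    ring
  rw [← h6] at h
  push_cast at h
  have h7 : ((b : ℝ) ^ 2) ^ (κ + 1) - err b (κ + 1) l ≤ (S.al X (l + (κ + 1)) : ℝ) / S.al X l := by
    linarith
  rwa [le_div_iff₀ hpos'] at h7

/-- The contribution of an idempotent. -/
lemma r_real (hX : 0 < finrank W.K (W.H X)) (hN : ∀ n, S.Num ((pw X n).prod (pw X n)) = ⊥)
    {m m₀ j : ℕ} (hj : m + m₀ + 2 = 2 * j) (θ : P ≅ pw X m) {g : Module.End W.K (W.H P)}
    (hg : g ∈ S.Op P P) (hgg : g ∘ₗ g = g) {l : ℕ} (hl : 0 < l) :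
    ((finrank W.K (LinearMap.range g) : ℝ) * (finrank W.K (W.H X) : ℝ) ^ (m₀ + 1) -
      err (finrank W.K (W.H X)) j l) * S.al X l ≤
      S.r P g ((pw X m₀).prod ((pw X l).prod (pw X l))) := by
  have h1 := r_ge (S := S) (P₀ := pw X m₀) hg hgg (pw X l)
  have haP : S.a ((P.prod (pw X m₀)).prod ((pw X l).prod (pw X l))) = S.al X (l + j) := by
    rw [S.a_iso (prodCongr (prodCongr θ (Iso.refl _) ≪≫ pwAdd X m m₀) (Iso.refl _))]
    exact S.a_pw X (by omega)
  have hal : S.a ((pw X l).prod (pw X l)) = S.al X l := rfl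
  rw [haP, finrank_iso θ, finrank_pw, finrank_pw, hal] at h1
  have h2 := al_ratio (S := S) (X := X) hX hN (j := j) (by omega) hl
  set b := finrank W.K (W.H X) with hb
  have h3 : (S.al X (l + j) : ℝ) + finrank W.K (LinearMap.range g) * (b : ℝ) ^ (m₀ + 1) *
      S.al X l ≤ S.r P g ((pw X m₀).prod ((pw X l).prod (pw X l))) +
        (b : ℝ) ^ (m + 1) * (b : ℝ) ^ (m₀ + 1) * S.al X l := by exact_mod_cast h1
  have h4 : (b : ℝ) ^ (m + 1) * (b : ℝ) ^ (m₀ + 1) = ((b : ℝ) ^ 2) ^ j := by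
    rw [← pow_add, ← pow_mul]
    congr 1
    omega
  rw [h4] at h3
  nlinarith

/-- The number of the classes on a power. -/
lemma a_up {m₀ l n : ℕ} (hn : n = m₀ + (l + l + 1) + 1) :
    S.a (pw X n) ≤ finrank W.K (W.H X) ^ (m₀ + 1) * S.al X l := by
  let φ : (pw X m₀).prod ((pw X l).prod (pw X l)) ≅ pw X n :=
    prodCongr (Iso.refl _) (pwAdd X l l) ≪≫ pwAdd X m₀ (l + l + 1) ≪≫
      eqToIso (congrArg (pw X) hn.symm)
  rw [← S.a_iso φ, ← finrank_pw]
  exact S.a_le _ _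

lemma C_eq (T : Sys W) {m₀ l n : ℕ} (hn : n = m₀ + (l + l + 1) + 1) :
    finrank W.K (T.C ((pw X m₀).prod ((pw X l).prod (pw X l)))) = finrank W.K (T.C (pw X n)) := by
  let φ : (pw X m₀).prod ((pw X l).prod (pw X l)) ≅ pw X n :=
    prodCongr (Iso.refl _) (pwAdd X l l) ≪≫ pwAdd X m₀ (l + l + 1) ≪≫
      eqToIso (congrArg (pw X) hn.symm)
  exact T.finrank_C_iso φ

/-- An elementary estimate. -/
lemma log_le {l n m₀ : ℕ} (hm₀ : m₀ ≤ 1) (hl : 0 < l) (hn : n = m₀ + (l + l + 1) + 1) :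
    Real.log (l + 2) / l ≤ 5 * (Real.log (n + 2) / n) := by
  have hl' : (0 : ℝ) < l := by exact_mod_cast hl
  have hn' : (0 : ℝ) < n := by
    have : 0 < n := by omega
    exact_mod_cast this
  have h1 : Real.log ((l : ℝ) + 2) ≤ Real.log ((n : ℝ) + 2) := by
    apply Real.log_le_log (by linarith)
    have : (l : ℝ) ≤ n := by
      have : l ≤ n := by omega
      exact_mod_cast this
    linarith
  have h0 : 0 ≤ Real.log ((l : ℝ) + 2) := Real.log_nonneg (by linarith)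
  have h2 : (n : ℝ) ≤ 5 * l := by
    have : n ≤ 5 * l := by omega
    exact_mod_cast this
  rw [div_le_iff₀ hl']
  have h3 : Real.log ((n : ℝ) + 2) ≤ 5 * (Real.log (n + 2) / n) * l := by
    rw [mul_assoc, div_mul_eq_mul_div, ← mul_div_assoc, le_div_iff₀ hn']
    nlinarith
  exact h1.trans h3

/-- **The conclusion** from the sum of the contributions. -/
theorem concl (hX : 0 < finrank W.K (W.H X)) {t L c : ℕ} {j m₀ l n : ℕ} (hm₀ : m₀ ≤ 1)
    (hl : 0 < l) (hn : n = m₀ + (l + l + 1) + 1)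
    (hc : 5 * L * j * finrank W.K (W.H X) ^ (2 * j + 2) ≤ c)
    (h : (L : ℝ) * ((finrank W.K (W.H X) : ℝ) ^ (m₀ + 1) - err (finrank W.K (W.H X)) j l) *
      S.al X l ≤ t) :
    ((L : ℝ) - c * Real.log (n + 2) / n) * S.a (pw X n) ≤ t := by
  set b := finrank W.K (W.H X) with hb
  have hb1 : (1 : ℝ) ≤ b := by exact_mod_cast hX
  have hb2 : (1 : ℝ) ≤ (b : ℝ) ^ (m₀ + 1) := one_le_pow₀ hb1
  have ha : (S.a (pw X n) : ℝ) ≤ (b : ℝ) ^ (m₀ + 1) * S.al X l := by exact_mod_cast a_up hn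
  have hL : (0 : ℝ) ≤ L := Nat.cast_nonneg _
  have hal : (0 : ℝ) ≤ S.al X l := Nat.cast_nonneg _
  have hlogn : 0 ≤ Real.log ((n : ℝ) + 2) / n := by
    apply div_nonneg (Real.log_nonneg _) (Nat.cast_nonneg _)
    have : (0 : ℝ) ≤ n := Nat.cast_nonneg _
    linarith
  have he0 := err_nonneg b j l
  have he : (L : ℝ) * err b j l ≤ c * Real.log (n + 2) / n := by
    have h1 := log_le hm₀ hl hn
    have h2 : (L : ℝ) * err b j l = (L * j * (b : ℝ) ^ (2 * j + 2)) * (Real.log (l + 2) / l) := by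
      unfold err
      rw [← pow_mul]
      ring
    rw [h2]
    have h3 : (0 : ℝ) ≤ L * j * (b : ℝ) ^ (2 * j + 2) := by positivity
    have h4 : (5 : ℝ) * L * j * (b : ℝ) ^ (2 * j + 2) ≤ c := by exact_mod_cast hc
    calc (L * j * (b : ℝ) ^ (2 * j + 2)) * (Real.log (l + 2) / l) ≤
        (L * j * (b : ℝ) ^ (2 * j + 2)) * (5 * (Real.log (n + 2) / n)) :=
          mul_le_mul_of_nonneg_left h1 h3
      _ = (5 * L * j * (b : ℝ) ^ (2 * j + 2)) * (Real.log (n + 2) / n) := by ring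
      _ ≤ c * (Real.log (n + 2) / n) := mul_le_mul_of_nonneg_right h4 hlogn
      _ = _ := by ring
  rcases le_or_gt ((L : ℝ) - c * Real.log (n + 2) / n) 0 with h0 | h0
  · exact (mul_nonpos_of_nonpos_of_nonneg h0 (Nat.cast_nonneg _)).trans (Nat.cast_nonneg _)
  · have h5 : ((L : ℝ) - c * Real.log (n + 2) / n) * (b : ℝ) ^ (m₀ + 1) ≤
        L * ((b : ℝ) ^ (m₀ + 1) - err b j l) := by
      have h6 : (L : ℝ) * err b j l ≤ (L * err b j l) * (b : ℝ) ^ (m₀ + 1) :=
        le_mul_of_one_le_right (mul_nonneg hL he0) hb2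
      have h7 : ((L : ℝ) * err b j l) * (b : ℝ) ^ (m₀ + 1) ≤
          (c * Real.log (n + 2) / n) * (b : ℝ) ^ (m₀ + 1) :=
        mul_le_mul_of_nonneg_right he (by linarith)
      linarith
    calc ((L : ℝ) - c * Real.log (n + 2) / n) * S.a (pw X n)
        ≤ ((L : ℝ) - c * Real.log (n + 2) / n) * ((b : ℝ) ^ (m₀ + 1) * S.al X l) :=
          mul_le_mul_of_nonneg_left ha h0.le
      _ = (((L : ℝ) - c * Real.log (n + 2) / n) * (b : ℝ) ^ (m₀ + 1)) * S.al X l := by ring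
      _ ≤ (L * ((b : ℝ) ^ (m₀ + 1) - err b j l)) * S.al X l := mul_le_mul_of_nonneg_right h5 hal
      _ ≤ t := h

end Pool.Agent.P8H28.AT
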