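import Pool.Agent.P8H28.AT.Defs

/-!
# The sum of the Betti numbers
-/

set_option autoImplicit false

open CategoryTheory AlgebraicGeometry

universe u

namespace Pool.Agent.P8H28.AT

open Pool.Agent.H914 Pool.Agent.H914.VarClass Pool.Agent.Y121.AHS

variable {k : Type u} [Field k] {𝒱 : VarClass k} {ops : CycleOps 𝒱}

/-- The sum of the Betti numbers of `X`. -/
noncomputable def betti (T : HodgeTheory ops) (X : 𝒱.Obj) : ℕ := Module.finrank T.W.K (T.W.H X)

end Pool.Agent.P8H28.AT
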