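import Pool.Agent.Y121.AHS.CDefs

/-!
# Definitions

`pw X n` is the product of `n + 1` copies of `X`. In the intended use the varieties are the smooth
projective ones over the field of complex numbers and `T` is the theory `X ↦ H(X, ℚ)`.
-/

open CategoryTheory TensorProduct

universe u

namespace Pool.Agent.P8H28.AT

open Pool.Agent.H914 Pool.Agent.H914.VarClass Pool.Agent.H914.VarClass.Obj
  Pool.Agent.H914.WeilCohomology
open Pool.Agent.Y121.AHS
open Pool.Agent.Y133.Half (pw)

section Ext

/-- The trace of `F` vanishes. -/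
def TraceZero {E : Type} [AddCommGroup E] [Module ℂ E] (F : E →ₗ[ℂ] E) : Prop :=
  LinearMap.trace ℂ E F = 0

variable {K A : Type} [Field K] [Algebra K ℂ] [Ring A] [Algebra K A]

/-- All elements of the field `K` are rational numbers. -/
def IsRat (K : Type) [Field K] : Prop := ∀ r : K, ∃ q : ℚ, (q : K) = r

/-- The complex conjugation, as a linear map over the field `K` of the rational numbers. -/
noncomputable def conjK (h : IsRat K) : ℂ →ₗ[K] ℂ where
  toFun z := (starRingEnd ℂ) z
  map_add' := map_add _
  map_smul' r z := by obtain ⟨q, rfl⟩ := h r; simp [Algebra.smul_def]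

/-- The complex conjugation `z ⊗ a ↦ z̄ ⊗ a`. -/
noncomputable def bar (h : IsRat K) (x : Ext K ℂ A) : Ext K ℂ A :=
  TensorProduct.map (conjK h) (LinearMap.id : A →ₗ[K] A) (show ℂ ⊗[K] A from x)

/-- The extension of the bilinear form `(x, y) ↦ tr (x * f y)` to complex coefficients. -/
noncomputable def form (tr : A →ₗ[K] K) (f : A →ₗ[K] A) (x y : Ext K ℂ A) : ℂ :=
  extForm K ℂ tr (extMul K ℂ x (extMap K ℂ f y))

/-- Let `K` be the field of rational numbers, `A` the cohomology of a variety of dimension `d`, and let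
`ty p q x` mean that the element `x` of `A ⊗ ℂ` is of type `(p, q)`. The form `ψ(x, y) = tr (x * f y)`
is a polarisation (by Poincaré duality every bilinear form on `A` is equal to such a form): the complex
conjugation maps type `(p, q)` to type `(q, p)`, the form `ψ` vanishes on types `(p, q)` and `(r, s)`
unless `(r, s) = (q, p)`, and for every nonzero `x` of type `(p, q)` the numbers `p` and `q` are between
`0` and `d` and `i ^ (p - q) ψ(x, x̄)` is a positive real number. -/
structure Polarises (tr : A →ₗ[K] K) (f : A →ₗ[K] A) (h : IsRat K)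
    (ty : ℤ → ℤ → Ext K ℂ A → Prop) (d : ℤ) : Prop where
  conj : ∀ p q x, ty p q x → ty q p (bar h x)
  orth : ∀ p q r s x y, ty p q x → ty r s y → (r ≠ q ∨ s ≠ p) → form tr f x y = 0
  pos : ∀ p q x, ty p q x → x ≠ 0 → (0 ≤ p ∧ p ≤ d ∧ 0 ≤ q ∧ q ≤ d) ∧
    ∃ r : ℝ, 0 < r ∧ Complex.I ^ (p - q) * form tr f x (bar h x) = r

/-- The map `f` is an endomorphism of the rational Hodge structure `A`. -/
def IsEnd (ty : ℤ → ℤ → Ext K ℂ A → Prop) (f : A →ₗ[K] A) : Prop :=
  ∀ p q x, ty p q x → ty p q (extMap K ℂ f x)

/-- The map `f` belongs to the centre of the algebra of the endomorphisms of the Hodge structure. -/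
def Central (ty : ℤ → ℤ → Ext K ℂ A → Prop) (f : A →ₗ[K] A) : Prop :=
  IsEnd ty f ∧ ∀ g, IsEnd ty g → ∀ c, f (g c) = g (f c)

/-- The elements of the centre are self-adjoint for the form `tr (x * f y)`. (The centre is a product
of totally real fields.) -/
def SelfAdj (ty : ℤ → ℤ → Ext K ℂ A → Prop) (tr : A →ₗ[K] K) (f : A →ₗ[K] A) : Prop :=
  ∀ g, Central ty g → ∀ c d, tr (g c * f d) = tr (c * f (g d))

/-- The sum of all `(p - q) Tr(f | H^(p,q))` is zero for all elements `f` of the centre: the linear
map which is `(p - q) f` on the elements of type `(p, q)` has trace zero. (The Hodge group is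
semisimple.) -/
def TraceFree (ty : ℤ → ℤ → Ext K ℂ A → Prop) : Prop :=
  ∀ f, Central ty f → ∀ F : Ext K ℂ A →ₗ[ℂ] Ext K ℂ A,
    (∀ p q x, ty p q x → F x = extSm K ℂ ((p - q : ℤ) : ℂ) (extMap K ℂ f x)) → TraceZero F

/-- The Hodge structure `A` has a polarisation, and the exponent `N` is `max 4 t` if the centre is a
product of totally real fields, `max 4 (t ^ 2 / 4)` if the Hodge group is semisimple, and
`max 4 ((d t) ^ t)` in general. -/
def IsExp (tr : A →ₗ[K] K) (h : IsRat K) (ty : ℤ → ℤ → Ext K ℂ A → Prop) (d t N : ℕ) : Prop :=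
  ∃ f, Polarises tr f h ty d ∧ (SelfAdj ty tr f ∧ N = max 4 t ∨
    TraceFree ty ∧ N = max 4 (t ^ 2 / 4) ∨ N = max 4 ((d * t) ^ t))

/-- The element `s (z p(a))`. -/
def transfer {B C : Type} [Ring B] [Algebra K B] [Ring C] [Algebra K C] (p : A →ₐ[K] C)
    (s : C →ₗ[K] B) (z : C) (a : A) : B := s (z * p a)

end Ext

variable {k : Type u} [Field k] {𝒱 : VarClass k} {ops : CycleOps 𝒱}

/-- The dimension of the subspace of `H(X)` spanned by the classes with the property `P j` for some
number `j`. -/
noncomputable def dimSpan (W : WeilCohomology.{u, 0} ops) (X : 𝒱.Obj) (P : ℕ → W.H X → Prop) : ℕ :=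
  Set.finrank W.K {c | ∃ j, P j c}

/-- The image `pr₂_* (z · pr₁^* x)` of the class `x` on `X` under the correspondence given by the
class `z` on `X × Y`. -/
noncomputable def cor (W : WeilCohomology.{u, 0} ops) {X Y : 𝒱.Obj} (z : W.H (X.prod Y))
    (x : W.H X) : W.H Y := transfer (W.map (fst X Y)) (W.push (snd X Y)) z x

/-- The identity of `H(Y)` is a finite sum of compositions `H(Y) → H(X ^ (m + 1)) → H(Y)` of
correspondences given by absolutely Hodge classes. (This holds if the motive of `Y` for absolute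
Hodge cycles is a direct summand of a sum of Tate twists of motives of powers of `X`, for instance if
there is a surjective morphism from a power of `X` to `Y`, or if `Y` is a power of `X`, or a product
of factors of `X`.) -/
def FromPowersAbs {T : HodgeTheory ops} (D : Full.Conjugates T) (X Y : 𝒱.Obj) : Prop :=
  ∃ (r : ℕ) (m a b : Fin r → ℕ) (u : ∀ i, T.W.H (Y.prod (pw X (m i))))
    (v : ∀ i, T.W.H ((pw X (m i)).prod Y)),
    (∀ i, Full.IsAbsHodge D (Y.prod (pw X (m i))) (a i) (u i) ∧
      Full.IsAbsHodge D ((pw X (m i)).prod Y) (b i) (v i)) ∧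
    ∀ y : T.W.H Y, ∑ i, cor T.W (v i) (cor T.W (u i) y) = y

/-- All Hodge classes of degree `2 j` on `Y` are absolutely Hodge. -/
def AbsHodgeIn {T : HodgeTheory ops} (D : Full.Conjugates T) (Y : 𝒱.Obj) (j : ℕ) : Prop :=
  ∀ c, IsHodge T Y j c → Full.IsAbsHodge D Y j c

/-- For every conjugate theory and every prime number `p` there is a comparison isomorphism with
coefficients in a subfield of `ℚ_p` (in the use: in `ℚ_p`). -/
def AllPrimes {T : HodgeTheory ops} (D : Full.Conjugates T) : Prop :=
  ∀ (i : D.ι) (p : ℕ) [Fact p.Prime], ∃ a : D.J i, Nonempty (D.L i a →+* ℚ_[p])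

/-- For the conjugate theory with index `i` and each Hodge class `c` of degree `2 j` on `X` there are
two Hodge classes `w 1` and `w (-1)` of the conjugate theory, such that the image of `c` under the
comparison isomorphism `a` (corrected by the effect on the Tate twist) is the class `w (ε a)`. -/
def UpToSign {T : HodgeTheory ops} (D : Full.Conjugates T) (i : D.ι) (ε : D.J i → ℤˣ) (X : 𝒱.Obj)
    (j : ℕ) : Prop :=
  ∀ c, IsHodge T X j c → ∃ w : ℤˣ → (D.T' i).W.H X, (∀ s, IsHodge (D.T' i) X j (w s)) ∧
    ∀ a, (D.cmp i a).Maps j c (emL _ _ (w (ε a)))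

end Pool.Agent.P8H28.AT
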