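import Pool.Agent.P8H28.AT.Defs
import Pool.Agent.Y121.AHS.PDefs
import Pool.Agent.Y121.AHS.Gen0
import Pool.Agent.Y121.AHS.Conv2
import Pool.Agent.Y121.AH.HR

/-!
# One degree decides, and closure properties of absolutely Hodge classes
-/

set_option autoImplicit false
set_option linter.unusedSectionVars false

open CategoryTheory AlgebraicGeometry

universe u

namespace Pool.Agent.P8H28.AT

open Module
open Pool.Agent.H914 Pool.Agent.H914.VarClass Pool.Agent.H914.VarClass.Obj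
  Pool.Agent.H914.WeilCohomology
open Pool.Agent.Y121
open Pool.Agent.Y133.Half (pw Sys ClassPred)

variable {k : Type u} [Field k] {𝒱 : VarClass k} {ops : CycleOps 𝒱}

/-- The middle degree decides. -/
lemma lef {T : AH.HodgeTheory ops} (D : AH.Conjugates T) {Z : 𝒱.Obj}
    (h : ∀ c, AH.IsHodge T Z (Z.dim / 2) c → AH.IsAbsHodge D Z (Z.dim / 2) c) (j : ℕ)
    (c : T.W.H Z) (hc : AH.IsHodge T Z j c) : AH.IsAbsHodge D Z j c := by
  obtain ⟨E, hE⟩ := T.dec.polar Z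
  have hwh : ∀ m, AH.IsHodge T Z (1 * m) (T.W.cl Z E ^ m) := fun m => (AH.IsHodge.cl hE.1).pow m
  have hw : ∀ m, AH.IsAbsHodge D Z (1 * m) (T.W.cl Z E ^ m) := fun m =>
    AH.q_pow (Q := AH.absPred D) ((AH.absPred D).cl hE.1) m
  have low : ∀ j, 2 * j ≤ Z.dim → ∀ c, AH.IsHodge T Z j c → AH.IsAbsHodge D Z j c := by
    intro j hj c hc
    have h1 := (hwh (Z.dim / 2 - j)).mul hc
    rw [show 1 * (Z.dim / 2 - j) + j = Z.dim / 2 by omega] at h1
    have h2 := h _ h1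
    have h3 := (AH.absPred D).mul (hw (Z.dim - 2 * j - (Z.dim / 2 - j))) h2
    rw [← mul_assoc, ← pow_add, show Z.dim - 2 * j - (Z.dim / 2 - j) + (Z.dim / 2 - j) =
      Z.dim - 2 * j by omega, show 1 * (Z.dim - 2 * j - (Z.dim / 2 - j)) + Z.dim / 2 =
      Z.dim - j by omega] at h3
    obtain ⟨x, hx, hxc⟩ := AH.lifts_abs D Z E hE j hj _ h3
    have h4 : x - c = 0 := by
      refine AH.hl_inj hE.2.1 hj (Submodule.sub_mem _ ((AH.absPred D).gr hx) hc.1) ?_
      rw [mul_sub, hxc, sub_self]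
    rw [← sub_eq_zero.1 h4]
    exact hx
  by_cases hj : 2 * j ≤ Z.dim
  · exact low j hj c hc
  by_cases hj2 : j ≤ Z.dim
  · obtain ⟨x, hx, hxc⟩ := AH.lifts_hodge T Z E hE (Z.dim - j) (by omega) c
      (by rw [Nat.sub_sub_self hj2]; exact hc)
    have h1 := (AH.absPred D).mul (hw (Z.dim - 2 * (Z.dim - j)))
      (low (Z.dim - j) (by omega) x hx)
    rw [hxc, show 1 * (Z.dim - 2 * (Z.dim - j)) + (Z.dim - j) = j by omega] at h1
    exact h1
  · have h1 := hc.1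
    rw [T.W.gr_eq_bot Z _ (by omega), Submodule.mem_bot] at h1
    rw [h1]
    exact (AH.absPred D).zero

variable {T : AHS.HodgeTheory ops}

/-- The systems of the Hodge classes and of the absolutely Hodge classes. -/
lemma mem_abs {D : AHS.Full.Conjugates T} {Z : 𝒱.Obj} {j : ℕ} {c : T.W.H Z}
    (hc : AHS.IsHodge T Z j c) (h : c ∈ (AH.absSys (AHS.Full.toD D)).C Z) :
    AHS.Full.IsAbsHodge D Z j c := by
  have h1 := ClassPred.sp_proj (Q := AH.absPred (AHS.Full.toD D)) h j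
  have h2 : H914.proj ((AHS.toH T).W.isInternal Z) (2 * j) c = c := H914.proj_same _ hc.1
  have h3 : (AH.absPred (AHS.Full.toD D)).P Z j c := by
    rw [← h2]
    exact h1
  exact AHS.Full.isAbsHodge_iff.1 h3

lemma mem_hodge {Z : 𝒱.Obj} {j : ℕ} {c : T.W.H Z} (hc : AHS.IsHodge T Z j c) :
    c ∈ (AH.hodgeSys (AHS.toH T)).C Z :=
  ClassPred.sp_of (Q := AH.hodgePred (AHS.toH T)) hc

lemma all_iff {D : AHS.Full.Conjugates T} {Z : 𝒱.Obj} :
    (AH.hodgeSys (AHS.toH T)).C Z ≤ (AH.absSys (AHS.Full.toD D)).C Z ↔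
      ∀ j, AbsHodgeIn D Z j := by
  constructor
  · intro h j c hc
    exact mem_abs hc (h (mem_hodge hc))
  · intro h c hc
    refine ClassPred.sp_ind (Q := AH.hodgePred (AHS.toH T))
      (q := fun c => c ∈ (AH.absSys (AHS.Full.toD D)).C Z) ?_ ?_ ?_ hc
    · intro j x hx
      exact ClassPred.sp_of (Q := AH.absPred (AHS.Full.toD D))
        (AHS.Full.isAbsHodge_iff.2 (h j x hx))
    · exact Submodule.zero_mem _
    · intro a b ha hb
      exact Submodule.add_mem _ ha hb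

/-- The absolutely Hodge classes on a variety generated by the powers. -/
theorem from_closure (D : AHS.Full.Conjugates T) {X Y : 𝒱.Obj}
    (hX : ∀ n j, AbsHodgeIn D (pw X n) j) (hY : FromPowersAbs D X Y) (j : ℕ) :
    AbsHodgeIn D Y j := by
  intro c hc
  obtain ⟨r, m, a, b, u, v, huv, hsum⟩ := hY
  refine mem_abs hc ?_
  have h1 := hsum c
  rw [← h1]
  refine Submodule.sum_mem _ fun i _ => ?_
  have hu : T.W.corr (u i) ∈ (AH.absSys (AHS.Full.toD D)).Op Y (pw X (m i)) :=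
    Sys.Op.corr (ClassPred.sp_of (Q := AH.absPred (AHS.Full.toD D))
      (AHS.Full.isAbsHodge_iff.2 (huv i).1))
  have hv : T.W.corr (v i) ∈ (AH.absSys (AHS.Full.toD D)).Op (pw X (m i)) Y :=
    Sys.Op.corr (ClassPred.sp_of (Q := AH.absPred (AHS.Full.toD D))
      (AHS.Full.isAbsHodge_iff.2 (huv i).2))
  have h2 : T.W.corr (u i) c ∈ (AH.hodgeSys (AHS.toH T)).C (pw X (m i)) :=
    Sys.Op.apply (AH.abs_le_hodge (AHS.Full.toD D)) hu (mem_hodge hc)
  have h3 := (all_iff (D := D)).2 (hX (m i)) h2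
  exact Sys.Op.apply (S := AH.absSys (AHS.Full.toD D)) (fun _ => le_rfl) hv h3

/-! ### The comparison isomorphisms with given signs -/

/-- The conjugate theories with the comparison isomorphisms with a given sign. -/
noncomputable def signed (D : AHS.Full.Conjugates T) (ε : ∀ i, D.J i → ℤˣ) :
    AHS.Full.Conjugates T where
  ι := D.ι × ULift.{u} ℤˣ
  T' p := D.T' p.1
  J p := {a : D.J p.1 // ε p.1 a = p.2.down}
  L p a := D.L p.1 a.1
  field p a := D.field p.1 a.1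
  alg p a := D.alg p.1 a.1
  alg' p a := D.alg' p.1 a.1
  emb p a := D.emb p.1 a.1
  cmp p a := D.cmp p.1 a.1

lemma signed_iff (D : AHS.Full.Conjugates T) (ε : ∀ i, D.J i → ℤˣ) {Z : 𝒱.Obj} {j : ℕ} :
    AbsHodgeIn (signed D ε) Z j ↔ ∀ i, AHS.Full.UpToSign D i (ε i) Z j := by
  constructor
  · intro h i c hc
    have key : ∀ s : ℤˣ, ∃ c' : (D.T' i).W.H Z, AHS.IsHodge (D.T' i) Z j c' ∧
        ∀ a : D.J i, ε i a = s → (D.cmp i a).Maps j c (AHS.emL _ _ c') := by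
      intro s
      obtain ⟨c', h1, h2⟩ := (h c hc).2 (i, ⟨s⟩)
      exact ⟨c', h1, fun a ha => h2 ⟨a, ha⟩⟩
    obtain ⟨p₁, q₁, r₁⟩ := key 1
    obtain ⟨p₂, q₂, r₂⟩ := key (-1)
    have h2 : ((2 : ℚ) : (D.T' i).W.K) ≠ 0 := by
      have : CharZero (D.T' i).W.K := (D.T' i).W.charZero
      exact Rat.cast_ne_zero.2 two_ne_zero
    have ha : AHS.IsHodge (D.T' i) Z j ((((2 : ℚ) : (D.T' i).W.K))⁻¹ • (p₁ + p₂)) :=
      (AH.hodgePred (AHS.toH (D.T' i))).smul _ ((AH.hodgePred (AHS.toH (D.T' i))).add q₁ q₂)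
    have hb : AHS.IsHodge (D.T' i) Z j ((((2 : ℚ) : (D.T' i).W.K))⁻¹ • (p₁ - p₂)) := by
      rw [sub_eq_add_neg, ← neg_one_smul (D.T' i).W.K p₂]
      exact (AH.hodgePred (AHS.toH (D.T' i))).smul _
        ((AH.hodgePred (AHS.toH (D.T' i))).add q₁
          ((AH.hodgePred (AHS.toH (D.T' i))).smul _ q₂))
    refine ⟨_, _, ha, hb, fun a => ?_⟩
    rcases Int.units_eq_one_or (ε i a) with he | he
    · have h3 : (((2 : ℚ) : (D.T' i).W.K))⁻¹ • (p₁ + p₂) +
          ε i a • ((((2 : ℚ) : (D.T' i).W.K))⁻¹ • (p₁ - p₂)) = p₁ := by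
        rw [he, one_smul, ← smul_add, add_add_sub_cancel, ← two_smul (D.T' i).W.K p₁, smul_smul]
        have : (((2 : ℚ) : (D.T' i).W.K))⁻¹ * 2 = 1 := by
          rw [← inv_mul_cancel₀ h2]
          norm_cast
        rw [this, one_smul]
      rw [h3]
      exact r₁ a he
    · have h3 : (((2 : ℚ) : (D.T' i).W.K))⁻¹ • (p₁ + p₂) +
          ε i a • ((((2 : ℚ) : (D.T' i).W.K))⁻¹ • (p₁ - p₂)) = p₂ := by
        rw [he, Units.neg_smul, one_smul, ← sub_eq_add_neg, ← smul_sub, add_sub_sub_cancel,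
          ← two_smul (D.T' i).W.K p₂, smul_smul]
        have : (((2 : ℚ) : (D.T' i).W.K))⁻¹ * 2 = 1 := by
          rw [← inv_mul_cancel₀ h2]
          norm_cast
        rw [this, one_smul]
      rw [h3]
      exact r₂ a he
  · intro h c hc
    refine ⟨hc, fun p => ?_⟩
    obtain ⟨c₀, c₁, h₀, h₁, hm⟩ := h p.1 c hc
    refine ⟨c₀ + p.2.down • c₁, ?_, fun a => ?_⟩
    · rcases Int.units_eq_one_or p.2.down with he | he
      · rw [he, one_smul]
        exact (AH.hodgePred (AHS.toH (D.T' p.1))).add h₀ h₁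
      · rw [he, Units.neg_smul, one_smul, ← neg_one_smul (D.T' p.1).W.K c₁]
        exact (AH.hodgePred (AHS.toH (D.T' p.1))).add h₀
          ((AH.hodgePred (AHS.toH (D.T' p.1))).smul _ h₁)
    · have h3 := hm a.1
      rw [a.2] at h3
      exact h3

lemma abs_signed {D : AHS.Full.Conjugates T} (ε : ∀ i, D.J i → ℤˣ) {Z : 𝒱.Obj} {j : ℕ}
    {c : T.W.H Z} (h : AHS.Full.IsAbsHodge D Z j c) : AHS.Full.IsAbsHodge (signed D ε) Z j c := by
  refine ⟨h.1, fun p => ?_⟩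
  obtain ⟨c', hc', hm⟩ := h.2 p.1
  exact ⟨c', hc', fun a => hm a.1⟩

lemma from_signed {D : AHS.Full.Conjugates T} (ε : ∀ i, D.J i → ℤˣ) {X Y : 𝒱.Obj}
    (h : FromPowersAbs D X Y) : FromPowersAbs (signed D ε) X Y := by
  obtain ⟨r, m, a, b, u, v, huv, hsum⟩ := h
  exact ⟨r, m, a, b, u, v, fun i => ⟨abs_signed ε (huv i).1, abs_signed ε (huv i).2⟩, hsum⟩

end Pool.Agent.P8H28.AT
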