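import Pool.Agent.P8H28.AT.Two
import Pool.Agent.P8H28.AT.Lef
import Pool.Agent.P8H28.AT.Betti
import Pool.Agent.Y121.AHS.Third
import Pool.Agent.N996.FP.FinT

/-!
# The effective one-third law
-/

set_option autoImplicit false
set_option linter.unusedSectionVars false

open CategoryTheory AlgebraicGeometry

universe u

namespace Pool.Agent.P8H28.AT

open Module
open Pool.Agent.H914 Pool.Agent.H914.VarClass Pool.Agent.H914.VarClass.Obj
  Pool.Agent.H914.WeilCohomology
open Pool.Agent.Y121 Pool.Agent.Y121.AHS Pool.Agent.N996.FP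
open Pool.Agent.Y133.Half (pw Sys ClassPred pfst psnd)
open Pool.Agent.N996.BP.Geo (CSys)

variable {k : Type u} [Field k] {𝒱 : VarClass k} {ops : CycleOps 𝒱}

/-! ### Elementary estimates -/

lemma one_le_log {n : ℕ} (hn : 0 < n) : 1 ≤ Real.log ((n : ℝ) + 2) := by
  have h1 : Real.exp 1 ≤ (n : ℝ) + 2 := by
    have h2 := Real.exp_one_lt_d9
    have h3 : (1 : ℝ) ≤ n := by exact_mod_cast hn
    linarith
  have h2 := Real.log_le_log (Real.exp_pos 1) h1
  rwa [Real.log_exp] at h2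

lemma coef_small {n C : ℕ} {L : ℝ} (hL : L ≤ 3) (hn0 : 0 < n) (hn : n ≤ 3) (hC : 9 ≤ C)
    {a h : ℕ} : (L - C * Real.log (n + 2) / n) * a ≤ h := by
  have h1 := one_le_log hn0
  have hn' : (0 : ℝ) < n := by exact_mod_cast hn0
  have hn3 : (n : ℝ) ≤ 3 := by exact_mod_cast hn
  have hC' : (9 : ℝ) ≤ C := by exact_mod_cast hC
  have h2 : (3 : ℝ) ≤ C * Real.log (n + 2) / n := by
    rw [le_div_iff₀ hn']
    nlinarith
  have h3 : L - C * Real.log (n + 2) / n ≤ 0 := by linarith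
  exact (mul_nonpos_of_nonpos_of_nonneg h3 (Nat.cast_nonneg _)).trans (Nat.cast_nonneg _)

lemma const_le {b N j L : ℕ} (hb : 0 < b) (hj : 2 * j ≤ N + 3) (hL : L ≤ 3) :
    5 * L * j * b ^ (2 * j + 2) ≤ 8 * (N + 3) * b ^ (N + 5) := by
  have h1 : b ^ (2 * j + 2) ≤ b ^ (N + 5) := Nat.pow_le_pow_right hb (by omega)
  refine Nat.mul_le_mul ?_ h1
  have h2 : 5 * L * j ≤ 15 * j := Nat.mul_le_mul_right _ (by omega)
  omega

/-- The choice of the numbers for a given power. -/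
lemma exists_num {N n : ℕ} (hN : 4 ≤ N) (hn : 3 < n) : ∃ m m₀ j l : ℕ, m₀ ≤ 1 ∧
    m + m₀ + 2 = 2 * j ∧ 0 < l ∧ n = m₀ + (l + l + 1) + 1 ∧ (m = N - 1 ∨ m = N) ∧
      2 * j ≤ N + 3 := by
  rcases Nat.mod_two_eq_zero_or_one n with h0 | h0 <;>
    rcases Nat.mod_two_eq_zero_or_one N with h1 | h1
  · exact ⟨N, 0, (N + 2) / 2, (n - 2) / 2, by omega⟩
  · exact ⟨N - 1, 0, (N + 1) / 2, (n - 2) / 2, by omega⟩
  · exact ⟨N - 1, 1, (N + 2) / 2, (n - 3) / 2, by omega⟩
  · exact ⟨N, 1, (N + 3) / 2, (n - 3) / 2, by omega⟩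

/-! ### The systems -/

variable {T : HodgeTheory ops} {D : Full.Conjugates T} {X : 𝒱.Obj}

variable (D) in
/-- The system of the absolutely Hodge classes. -/
noncomputable abbrev aS : Sys (toH T).W := AH.absSys (Full.toD D)

variable (T) in
/-- The system of the Hodge classes. -/
noncomputable abbrev hS : Sys (toH T).W := AH.hodgeSys (toH T)

lemma aS_le (Z : 𝒱.Obj) : (aS D).C Z ≤ (hS T).C Z := AH.abs_le_hodge _ _

lemma aS_num (Z : 𝒱.Obj) : (aS D).Num Z = ⊥ := AH.abs_num _ _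

lemma hS_nondeg (Z : 𝒱.Obj) : Sys.Nondeg (hS T) Z := fun _ hx h => AH.hodge_nondeg hx h

lemma dim_pw' (X : 𝒱.Obj) (n : ℕ) : (pw X n).dim = (n + 1) * X.dim := by
  induction n with
  | zero => rw [zero_add, one_mul]; rfl
  | succ n ih =>
    have h1 : (pw X (n + 1)).dim = (pw X n).dim + X.dim := dim_prod _ _
    rw [h1, ih]
    ring

lemma adm_four {ψ : RForm T.W X} {t N : ℕ} (h : AdmT T X ψ t N) : 4 ≤ N := by
  rcases h with ⟨-, h⟩ | ⟨-, h⟩ | h
  · rw [h]; exact le_max_left _ _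
  · rw [h]; exact le_max_left _ _
  · rw [h]; exact le_max_left _ _

/-- Generation of the absolutely Hodge classes. -/
lemma gen_abs {ψ : RForm T.W X} (hψ : IsPolarisation T X ψ) {N : ℕ}
    (hN : AdmT T X ψ (transBetti T X) N)
    (h : (hS T).C (pw X (N - 1)) ≤ (aS D).C (pw X (N - 1))) (n : ℕ) :
    (hS T).C (pw X n) ≤ (aS D).C (pw X n) :=
  admT_c hψ hN ((aS D).csys X) (fun _ => aS_le _) h n

lemma lt_of_not {N m : ℕ} (hX : 0 < finrank (toH T).W.K ((toH T).W.H X)) (hN : 4 ≤ N)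
    (hm : m = N - 1 ∨ m = N)
    (h : ¬ (hS T).C (pw X (N - 1)) ≤ (aS D).C (pw X (N - 1))) :
    (aS D).C (pw X m) < (hS T).C (pw X m) := by
  have h1 : (aS D).C (pw X (N - 1)) < (hS T).C (pw X (N - 1)) :=
    lt_of_le_not_ge (aS_le _) h
  rcases hm with rfl | rfl
  · exact h1
  · have : Nontrivial ((toH T).W.H X) := Module.nontrivial_of_finrank_pos hX
    obtain ⟨l, hl, hl1⟩ := AH.exists_tr (Full.toD D) X
    have h2 := Pool.Agent.Y133.Half.Sys.lt_succ (S := aS D) (T := hS T) aS_le hl hl1 h1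
    have h3 : m - 1 + 1 = m := by omega
    rwa [h3] at h2

/-- The family at the lower level. -/
lemma fam_down {W : WeilCohomology.{u, 0} ops} {S R : Sys W} (F : CSys W X)
    (hF : ∀ n, S.C (pw X n) ≤ F.C n) {l : W.H X} (hl : l ∈ S.C X) (hl1 : W.tr X l = 1) {M : ℕ}
    (h : R.C (pw X (M + 1)) ≤ F.C (M + 1)) : R.C (pw X M) ≤ F.C M := by
  intro c hc
  have h1 : W.map (pfst X M) c ∈ F.C (M + 1) := h (R.map _ hc)
  have h2 : W.map (psnd X M) l ∈ F.C (M + 1) := hF _ (S.map (psnd X M) hl)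
  have h3 := F.push (F.mul h1 h2)
  have h4 : W.push (pfst X M) (W.map (pfst X M) c * W.map (psnd X M) l) = c := by
    have h5 := Pool.Agent.Y133.Half.push_fst c l (S.even hl)
    rw [hl1, one_smul] at h5
    exact h5
  rwa [h4] at h3

/-- A line gives index at most two. -/
theorem line_two {ψ : RForm T.W X} (hψ : IsPolarisation T X ψ) {N m : ℕ}
    (hN : AdmT T X ψ (transBetti T X) N) (hX : 0 < finrank (toH T).W.K ((toH T).W.H X))
    (hm : m = N - 1 ∨ m = N) (ℓ : Line (aS D) (hS T) (pw X m)) (l : ℕ) :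
    hodgeDim T (pw X (l + l + 1)) ≤ 2 * Full.absDim D (pw X (l + l + 1)) := by
  set F := famZ (aS_le (D := D)) aS_num hS_nondeg ℓ X with hF
  have h1 : (hS T).C (pw X m) ≤ F.C m := by
    refine ℓ.gen.trans (sup_le le_sup_left ?_)
    intro x hx
    obtain ⟨v, hv, rfl⟩ := mem_orb.1 hx
    exact Submodule.mem_sup_right
      (Gz.apply (ℓ.props (aS_le (D := D)) aS_num hS_nondeg).1 hv)
  have h2 : (hS T).C (pw X (N - 1)) ≤ F.C (N - 1) := by
    rcases hm with rfl | rfl
    · exact h1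
    · have : Nontrivial ((toH T).W.H X) := Module.nontrivial_of_finrank_pos hX
      obtain ⟨l, hl, hl1⟩ := AH.exists_tr (Full.toD D) X
      refine fam_down (S := aS D) (R := hS T) F (fun n => le_sup_left) hl hl1 ?_
      have h3 : m - 1 + 1 = m := by have := adm_four hN; omega
      rw [h3]
      exact h1
  have h3 := admT_c hψ hN F (fun n => sup_le (aS_le _)
    (Gz.le (aS_le (D := D)) aS_num hS_nondeg ℓ)) h2
  have h4 := ℓ.two (aS_le (D := D)) aS_num hS_nondeg h3 l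
  rw [← Full.absDim_eq]
  exact h4

open Filter Topology in
open scoped ENNReal in
lemma not_third {a h : ℕ → ℕ} (hpos : ∀ n, 0 < h n) (h2 : ∀ l, h (l + l + 1) ≤ 2 * a (l + l + 1)) :
    ¬ Full.AtMostThird a h := by
  rintro ⟨N, hN, hlim⟩
  have h3 : ((N : ℝ≥0∞))⁻¹ ≤ (3 : ℝ≥0∞)⁻¹ := by
    rw [ENNReal.inv_le_inv]
    exact_mod_cast hN
  have h4 : ((N : ℝ≥0∞))⁻¹ < (2 : ℝ≥0∞)⁻¹ := by
    refine lt_of_le_of_lt h3 ?_
    rw [ENNReal.inv_lt_inv]
    norm_num
  have h5 := hlim.eventually (gt_mem_nhds h4)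
  obtain ⟨n₀, hn₀⟩ := h5.exists_forall_of_atTop
  have h6 := hn₀ (n₀ + n₀ + 1) (by omega)
  have h7 := h2 n₀
  have h8 := hpos (n₀ + n₀ + 1)
  refine absurd h6 (not_lt.2 ?_)
  rw [ENNReal.le_div_iff_mul_le (Or.inl (by exact_mod_cast h8.ne'))
    (Or.inl (ENNReal.natCast_ne_top _)), ← ENNReal.div_eq_inv_mul]
  refine ENNReal.div_le_of_le_mul ?_
  rw [mul_comm]
  exact_mod_cast h7

lemma hodge_pos (hX : 0 < finrank (toH T).W.K ((toH T).W.H X)) (n : ℕ) :
    0 < hodgeDim T (pw X n) := by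
  have : Nontrivial ((toH T).W.H X) := Module.nontrivial_of_finrank_pos hX
  exact Pool.Agent.Y133.Half.Sys.finrank_pos_pw (X := X) (hS T) n

/-- The powers are generated by `X`. -/
lemma from_pw (D : Full.Conjugates T) (X : 𝒱.Obj) (n : ℕ) : FromPowersAbs D X (pw X n) := by
  set Z := pw X n with hZ
  have h0 : Full.IsAbsHodge D (Z.prod Z) Z.dim (T.W.push (diag Z) 1) := by
    refine Full.isAbsHodge_iff.1 ?_
    have h1 : (AH.absPred (Full.toD D)).P Z 0 (1 : (toH T).W.H Z) := by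
      rw [← (toH T).W.cl_fund Z]
      exact (AH.absPred (Full.toD D)).cl Z.V.fundCycle_mem
    refine (AH.absPred (Full.toD D)).push (diag Z) ?_ h1
    rw [dim_prod, zero_add]
  refine ⟨1, fun _ => n, fun _ => Z.dim, fun _ => Z.dim, fun _ => T.W.push (diag Z) 1,
    fun _ => T.W.push (diag Z) 1, fun _ => ⟨h0, h0⟩, fun y => ?_⟩
  have h1 : ∀ y : T.W.H Z, cor T.W (T.W.push (diag Z) 1) y = y := by
    intro y
    have h2 := T.W.corr_diag (1 : T.W.H Z) y
    rw [one_mul] at h2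
    exact h2
  rw [Finset.sum_const, Finset.card_univ, Fintype.card_fin, one_smul, h1, h1]

/-- **The main theorem.** -/
theorem main (T : HodgeTheory ops) (D : Full.Conjugates T) (X : 𝒱.Obj) (ψ : RForm T.W X)
    (hψ : IsPolarisation T X ψ) (N C : ℕ) (hN : AdmT T X ψ (transBetti T X) N)
    (hC : C = 8 * (N + 3) * betti T X ^ (N + 5)) :
    (∀ n, FromPowersAbs D X (pw X n)) ∧
    (AbsHodgeIn D (pw X (N - 1)) (N * X.dim / 2) →
      ∀ Y, FromPowersAbs D X Y → ∀ j, AbsHodgeIn D Y j) ∧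
    ((∀ Y, FromPowersAbs D X Y → ∀ j, AbsHodgeIn D Y j) ∨ ∀ n : ℕ, 0 < n →
      (2 - C * Real.log (n + 2) / n) * Full.absDim D (pw X n) ≤ hodgeDim T (pw X n)) ∧
    (Full.AllPrimes D →
      (∀ i, ∃ ε : D.J i → ℤˣ, ∀ Y, FromPowersAbs D X Y → ∀ j, Full.UpToSign D i ε Y j) ∨
        ∀ n : ℕ, 0 < n →
          (3 - C * Real.log (n + 2) / n) * Full.absDim D (pw X n) ≤ hodgeDim T (pw X n)) := by
  have hN4 := adm_four hN
  have hall : (hS T).C (pw X (N - 1)) ≤ (aS D).C (pw X (N - 1)) →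
      ∀ Y, FromPowersAbs D X Y → ∀ j, AbsHodgeIn D Y j := by
    intro h Y hY
    exact from_closure D (fun n => all_iff.1 (gen_abs hψ hN h n)) hY
  refine ⟨from_pw D X, fun h => hall ?_, ?_, fun hD => ?_⟩
  · refine all_iff.2 fun j c hc => ?_
    have h1 : (pw X (N - 1)).dim / 2 = N * X.dim / 2 := by
      rw [dim_pw', Nat.sub_add_cancel (by omega)]
    refine Full.isAbsHodge_iff.1 (lef (Full.toD D) (fun c hc => ?_) j c hc)
    rw [h1] at hc ⊢
    exact Full.isAbsHodge_iff.2 (h c hc)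
  · by_cases hc : (hS T).C (pw X (N - 1)) ≤ (aS D).C (pw X (N - 1))
    · exact Or.inl (hall hc)
    right
    intro n hn
    rcases Nat.eq_zero_or_pos (finrank (toH T).W.K ((toH T).W.H X)) with hX | hX
    · exfalso
      apply hc
      intro x _
      have h1 : finrank (toH T).W.K ((toH T).W.H (pw X (N - 1))) = 0 := by
        rw [Pool.Agent.Y133.Half.finrank_pw, hX, zero_pow (Nat.succ_ne_zero _)]
      have h2 : Subsingleton ((toH T).W.H (pw X (N - 1))) := finrank_zero_iff.1 h1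
      rw [Subsingleton.elim x 0]
      exact Submodule.zero_mem _
    have hC9 : 9 ≤ C := by
      rw [hC]
      have h1 : 1 ≤ betti T X ^ (N + 5) := Nat.one_le_pow _ _ hX
      nlinarith
    rcases Nat.lt_or_ge 3 n with h3 | h3
    · obtain ⟨m, m₀, j, l, hm₀, hj, hl, hn', hm, hjN⟩ := exists_num hN4 h3
      have hlt := lt_of_not (D := D) hX hN4 hm hc
      have h1 := two_bound (S := aS D) (T := hS T) (X := X) aS_le aS_num hX hm₀ hj hl hn' hlt
        (c := C) (by rw [hC]; exact const_le (L := 2) hX hjN (by norm_num))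
      rw [a_eq (aS_num _)] at h1
      rw [← Full.absDim_eq]
      exact h1
    · exact coef_small (by norm_num) hn h3 hC9
  · by_cases hb : ∀ n : ℕ, 0 < n →
        (3 - C * Real.log (n + 2) / n) * Full.absDim D (pw X n) ≤ hodgeDim T (pw X n)
    · exact Or.inr hb
    left
    by_cases hc : (hS T).C (pw X (N - 1)) ≤ (aS D).C (pw X (N - 1))
    · intro i
      refine ⟨fun _ => 1, fun Y hY j => ?_⟩
      exact (signed_iff D (fun _ _ => 1)).1
        (fun c hc' => abs_signed _ (hall hc Y hY j c hc')) i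
    push Not at hb
    obtain ⟨n, hn, hbn⟩ := hb
    rcases Nat.eq_zero_or_pos (finrank (toH T).W.K ((toH T).W.H X)) with hX | hX
    · exfalso
      apply hc
      intro x _
      have h1 : finrank (toH T).W.K ((toH T).W.H (pw X (N - 1))) = 0 := by
        rw [Pool.Agent.Y133.Half.finrank_pw, hX, zero_pow (Nat.succ_ne_zero _)]
      have h2 : Subsingleton ((toH T).W.H (pw X (N - 1))) := finrank_zero_iff.1 h1
      rw [Subsingleton.elim x 0]
      exact Submodule.zero_mem _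
    have hC9 : 9 ≤ C := by
      rw [hC]
      have h1 : 1 ≤ betti T X ^ (N + 5) := Nat.one_le_pow _ _ hX
      nlinarith
    rcases Nat.lt_or_ge 3 n with h3 | h3
    swap
    · exact absurd (coef_small (le_refl 3) hn h3 hC9) (not_le.2 hbn)
    obtain ⟨m, m₀, j, l, hm₀, hj, hl, hn', hm, hjN⟩ := exists_num hN4 h3
    have hlt := lt_of_not (D := D) hX hN4 hm hc
    rcases three_or (S := aS D) (T := hS T) (X := X) aS_le aS_num hX hm₀ hj hl hn' hlt
      (c := C) (by rw [hC]; exact const_le (L := 3) hX hjN (by norm_num)) with h1 | ⟨⟨ℓ⟩⟩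
    · rw [a_eq (aS_num _)] at h1
      rw [← Full.absDim_eq] at hbn
      exact absurd h1 (not_le.2 hbn)
    have h2 := line_two hψ hN hX hm ℓ
    rcases Full.third_law T D hD X with h4 | h4
    · choose ε hε using h4
      intro i
      refine ⟨ε i, fun Y hY j => ?_⟩
      exact (signed_iff D ε).1 (from_closure (signed D ε)
        (fun n j => (signed_iff D ε).2 fun i => hε i n j) (from_signed ε hY) j) i
    · exact absurd h4 (not_third (hodge_pos hX) h2)

end Pool.Agent.P8H28.AT
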