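import Pool.Agent.P8H28.AT.Low

/-!
# Two or three independent families of classes
-/

set_option linter.unusedSectionVars false

open CategoryTheory AlgebraicGeometry

universe u v

namespace Pool.Agent.P8H28.AT

open Module
open Pool.Agent.H914 Pool.Agent.H914.VarClass Pool.Agent.H914.VarClass.Obj
  Pool.Agent.H914.WeilCohomology
open Pool.Agent.Y133.Half Pool.Agent.Y133.Half.Sys

variable {k : Type u} [Field k] {𝒱 : VarClass k} {ops : CycleOps 𝒱}
  {W : WeilCohomology.{u, v} ops} {S T : Sys W} {P P₀ Q Z X : 𝒱.Obj}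

lemma stb_bot : Stb S P ⊥ := fun a _ m hm => by
  rw [(Submodule.mem_bot _).1 hm, map_zero]; exact Submodule.zero_mem _

lemma stb_self : Stb S P (S.C P) := fun _ ha _ hx => Op.apply (T := S) (fun _ => le_rfl) ha hx

lemma stb_of_le (hST : ∀ X, S.C X ≤ T.C X) : Stb S P (T.C P) := fun _ ha _ hx =>
  Op.apply hST ha hx

lemma bot_lt (h1 : (1 : W.H P) ≠ 0) : (⊥ : Submodule W.K (W.H P)) < S.C P := by
  rw [bot_lt_iff_ne_bot]
  intro h
  have h2 := S.one P
  rw [h, Submodule.mem_bot] at h2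
  exact h1 h2

lemma one_pw_ne (hX : 0 < finrank W.K (W.H X)) (m : ℕ) : (1 : W.H (pw X m)) ≠ 0 := by
  have : Nontrivial (W.H (pw X m)) := by
    apply Module.nontrivial_of_finrank_pos (R := W.K)
    rw [finrank_pw]
    exact Nat.pow_pos hX
  exact one_ne_zero

lemma rank_pos {g : Module.End W.K (W.H P)} {M' : Submodule W.K (W.H P)}
    (h : ∃ m : W.H P, g m ∉ M') : 1 ≤ finrank W.K (LinearMap.range g) := by
  apply finrank_range_pos
  rintro rfl
  obtain ⟨m, hm⟩ := h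
  exact hm (by rw [LinearMap.zero_apply]; exact Submodule.zero_mem _)

/-- The images of `u` under the operators of the system. -/
noncomputable def orb (S : Sys W) {P : 𝒱.Obj} (u : W.H P) : Submodule W.K (W.H P) :=
  (S.Op P P).map (LinearMap.applyₗ u)

lemma mem_orb {u x : W.H P} : x ∈ orb S u ↔ ∃ v ∈ S.Op P P, v u = x := Submodule.mem_map

lemma self_mem_orb (u : W.H P) : u ∈ orb S u := mem_orb.2 ⟨LinearMap.id, Op.id, rfl⟩

lemma stb_orb (u : W.H P) : Stb S P (orb S u) := by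
  intro a ha x hx
  obtain ⟨v, hv, rfl⟩ := mem_orb.1 hx
  exact mem_orb.2 ⟨a ∘ₗ v, Op.comp ha hv, rfl⟩

lemma stb_sup {M M' : Submodule W.K (W.H P)} (h : Stb S P M) (h' : Stb S P M') :
    Stb S P (M ⊔ M') := by
  intro a ha x hx
  obtain ⟨y, hy, z, hz, rfl⟩ := Submodule.mem_sup.1 hx
  rw [map_add]
  exact Submodule.add_mem_sup (h a ha y hy) (h' a ha z hz)

/-- The data of a class which generates all classes of `T` over `S`, such that the projector to the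
line of the class belongs to `S`. -/
structure Line (S T : Sys W) (P : 𝒱.Obj) where
  /-- the class -/
  u : W.H P
  /-- the linear form -/
  φ : W.H P →ₗ[W.K] W.K
  one : φ u = 1
  op : φ.smulRight u ∈ S.Op P P
  mem : u ∈ T.C P
  notMem : u ∉ S.C P
  gen : T.C P ≤ S.C P ⊔ orb S u

lemma exists_form {g : Module.End W.K (W.H P)} {u : W.H P} (hg : finrank W.K (LinearMap.range g) = 1)
    (hu : u ∈ LinearMap.range g) (hu0 : u ≠ 0) : ∃ φ : W.H P →ₗ[W.K] W.K, g = φ.smulRight u := by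
  obtain ⟨f, hf⟩ : ∃ f : W.H P →ₗ[W.K] W.K, f u = 1 := by
    obtain ⟨f, hf⟩ := not_forall.1 (mt (Module.forall_dual_apply_eq_zero_iff W.K u).1 hu0)
    exact ⟨(f u)⁻¹ • f, by rw [LinearMap.smul_apply, smul_eq_mul, inv_mul_cancel₀ hf]⟩
  refine ⟨f ∘ₗ g, ?_⟩
  apply LinearMap.ext
  intro x
  have h1 := (finrank_eq_one_iff_of_nonzero' (⟨u, hu⟩ : LinearMap.range g)
    (fun h => hu0 (congrArg Subtype.val h))).1 hg ⟨g x, ⟨x, rfl⟩⟩
  obtain ⟨c, hc⟩ := h1
  have h2 : c • u = g x := congrArg Subtype.val hc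
  rw [LinearMap.smulRight_apply, LinearMap.comp_apply, ← h2, map_smul, hf, smul_eq_mul, mul_one]

section Main

variable (hST : ∀ X, S.C X ≤ T.C X) (hN : ∀ Z, S.Num Z = ⊥)
  (hX : 0 < finrank W.K (W.H X)) {m m₀ j l n : ℕ} (hm₀ : m₀ ≤ 1) (hj : m + m₀ + 2 = 2 * j)
  (hl : 0 < l) (hn : n = m₀ + (l + l + 1) + 1)

include hST hN hX hm₀ hj hl hn

/-- Two families. -/
theorem two_bound (hlt : S.C (pw X m) < T.C (pw X m)) {c : ℕ}
    (hc : 5 * 2 * j * finrank W.K (W.H X) ^ (2 * j + 2) ≤ c) :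
    ((2 : ℝ) - c * Real.log (n + 2) / n) * S.a (pw X n) ≤ finrank W.K (T.C (pw X n)) := by
  set Z := (pw X m₀).prod ((pw X l).prod (pw X l)) with hZ
  obtain ⟨g₀, hg₀, hgg₀, ⟨x₀, -, hx₀⟩, h0⟩ := sys_step (S := S) (pw X m) Z stb_bot stb_self
    (bot_lt (one_pw_ne hX m))
  obtain ⟨g₁, hg₁, hgg₁, ⟨x₁, -, hx₁⟩, h1⟩ := sys_step (S := S) (pw X m) Z stb_self
    (stb_of_le hST) hlt
  have h2 := Submodule.finrank_mono (gn_le (Z := Z) hST (le_refl (T.C (pw X m))))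
  have e0 := r_real (S := S) hX (fun n => hN _) hj (Iso.refl (pw X m)) hg₀ hgg₀ hl
  have e1 := r_real (S := S) hX (fun n => hN _) hj (Iso.refl (pw X m)) hg₁ hgg₁ hl
  rw [← hZ] at e0 e1
  have r0 := rank_pos ⟨x₀, hx₀⟩
  have r1 := rank_pos ⟨x₁, hx₁⟩
  have h3 : S.r (pw X m) g₀ Z + S.r (pw X m) g₁ Z ≤ finrank W.K (T.C (pw X n)) := by
    rw [← C_eq T hn, ← hZ]
    omega
  refine concl (S := S) (L := 2) hX hm₀ hl hn hc ?_
  have h4 : (S.r (pw X m) g₀ Z : ℝ) + S.r (pw X m) g₁ Z ≤ finrank W.K (T.C (pw X n)) := by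
    exact_mod_cast h3
  refine le_trans ?_ h4
  set b := finrank W.K (W.H X)
  have r0' : (1 : ℝ) ≤ finrank W.K (LinearMap.range g₀) := by exact_mod_cast r0
  have r1' : (1 : ℝ) ≤ finrank W.K (LinearMap.range g₁) := by exact_mod_cast r1
  have hb : (0 : ℝ) ≤ (b : ℝ) ^ (m₀ + 1) * S.al X l := by positivity
  have k0 := mul_le_mul_of_nonneg_right r0' hb
  have k1 := mul_le_mul_of_nonneg_right r1' hb
  push_cast
  nlinarith

/-- Three families. -/
theorem three_or (hlt : S.C (pw X m) < T.C (pw X m)) {c : ℕ}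
    (hc : 5 * 3 * j * finrank W.K (W.H X) ^ (2 * j + 2) ≤ c) :
    ((3 : ℝ) - c * Real.log (n + 2) / n) * S.a (pw X n) ≤ finrank W.K (T.C (pw X n)) ∨
      Nonempty (Line S T (pw X m)) := by
  set Z := (pw X m₀).prod ((pw X l).prod (pw X l)) with hZ
  obtain ⟨g₀, hg₀, hgg₀, ⟨x₀, -, hx₀⟩, h0⟩ := sys_step (S := S) (pw X m) Z stb_bot stb_self
    (bot_lt (one_pw_ne hX m))
  obtain ⟨g₁, hg₁, hgg₁, ⟨x₁, hxT, hx₁⟩, h1⟩ := sys_step (S := S) (pw X m) Z stb_self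
    (stb_of_le hST) hlt
  have h2 := Submodule.finrank_mono (gn_le (Z := Z) hST (le_refl (T.C (pw X m))))
  have e0 := r_real (S := S) hX (fun n => hN _) hj (Iso.refl (pw X m)) hg₀ hgg₀ hl
  have e1 := r_real (S := S) hX (fun n => hN _) hj (Iso.refl (pw X m)) hg₁ hgg₁ hl
  rw [← hZ] at e0 e1
  have r0 := rank_pos ⟨x₀, hx₀⟩
  have r1 := rank_pos ⟨x₁, hx₁⟩
  set b := finrank W.K (W.H X) with hb'
  have r0' : (1 : ℝ) ≤ finrank W.K (LinearMap.range g₀) := by exact_mod_cast r0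
  have hb : (0 : ℝ) ≤ (b : ℝ) ^ (m₀ + 1) * S.al X l := by positivity
  have k0 := mul_le_mul_of_nonneg_right r0' hb
  have herr := err_nonneg b j l
  have hal : (0 : ℝ) ≤ S.al X l := Nat.cast_nonneg _
  have hea := mul_nonneg herr hal
  rcases Nat.lt_or_ge 1 (finrank W.K (LinearMap.range g₁)) with hr | hr
  · left
    have h3 : S.r (pw X m) g₀ Z + S.r (pw X m) g₁ Z ≤ finrank W.K (T.C (pw X n)) := by
      rw [← C_eq T hn, ← hZ]
      omega
    refine concl (S := S) (L := 3) hX hm₀ hl hn hc ?_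
    have h4 : (S.r (pw X m) g₀ Z : ℝ) + S.r (pw X m) g₁ Z ≤ finrank W.K (T.C (pw X n)) := by
      exact_mod_cast h3
    refine le_trans ?_ h4
    have r1' : (2 : ℝ) ≤ finrank W.K (LinearMap.range g₁) := by exact_mod_cast hr
    have k1 := mul_le_mul_of_nonneg_right r1' hb
    push_cast
    nlinarith
  have hr1 : finrank W.K (LinearMap.range g₁) = 1 := le_antisymm hr r1
  set u := g₁ x₁ with hu
  have hgu : g₁ u = u := congrArg (fun f : Module.End W.K (W.H (pw X m)) => f x₁) hgg₁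
  have huT : u ∈ T.C (pw X m) := stb_of_le hST _ hg₁ _ hxT
  have hu0 : u ≠ 0 := by
    intro h
    apply hx₁
    rw [h]
    exact Submodule.zero_mem _
  obtain ⟨φ, hφ⟩ := exists_form hr1 ⟨u, hgu⟩ hu0
  have hφ1 : φ u = 1 := by
    have h5 : φ u • u = u := by
      rw [hφ, LinearMap.smulRight_apply] at hgu
      exact hgu
    have h6 : (φ u - 1) • u = 0 := by rw [sub_smul, one_smul, h5, sub_self]
    exact sub_eq_zero.1 ((smul_eq_zero.1 h6).resolve_right hu0)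
  by_cases hgen : T.C (pw X m) ≤ S.C (pw X m) ⊔ orb S u
  · right
    exact ⟨⟨u, φ, hφ1, hφ ▸ hg₁, huT, hx₁, hgen⟩⟩
  left
  have hM : Stb S (pw X m) (S.C (pw X m) ⊔ orb S u) := stb_sup stb_self (stb_orb u)
  have hlt1 : S.C (pw X m) < S.C (pw X m) ⊔ orb S u := by
    refine lt_of_le_of_ne le_sup_left fun h => hx₁ ?_
    rw [h]
    exact Submodule.mem_sup_right (self_mem_orb u)
  have hle2 : S.C (pw X m) ⊔ orb S u ≤ T.C (pw X m) := by
    refine sup_le (hST _) ?_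
    intro x hx
    obtain ⟨v, hv, rfl⟩ := mem_orb.1 hx
    exact stb_of_le hST _ hv _ huT
  have hlt2 : S.C (pw X m) ⊔ orb S u < T.C (pw X m) :=
    lt_of_le_of_ne hle2 fun h => hgen (le_of_eq h.symm)
  obtain ⟨g₂, hg₂, hgg₂, ⟨x₂, -, hx₂⟩, h2'⟩ := sys_step (S := S) (pw X m) Z stb_self hM hlt1
  obtain ⟨g₃, hg₃, hgg₃, ⟨x₃, -, hx₃⟩, h3'⟩ := sys_step (S := S) (pw X m) Z hM
    (stb_of_le hST) hlt2
  have e2 := r_real (S := S) hX (fun n => hN _) hj (Iso.refl (pw X m)) hg₂ hgg₂ hl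
  have e3 := r_real (S := S) hX (fun n => hN _) hj (Iso.refl (pw X m)) hg₃ hgg₃ hl
  rw [← hZ] at e2 e3
  have r2 : (1 : ℝ) ≤ finrank W.K (LinearMap.range g₂) := by exact_mod_cast rank_pos ⟨x₂, hx₂⟩
  have r3 : (1 : ℝ) ≤ finrank W.K (LinearMap.range g₃) := by exact_mod_cast rank_pos ⟨x₃, hx₃⟩
  have k2 := mul_le_mul_of_nonneg_right r2 hb
  have k3 := mul_le_mul_of_nonneg_right r3 hb
  have h5 : S.r (pw X m) g₀ Z + S.r (pw X m) g₂ Z + S.r (pw X m) g₃ Z ≤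
      finrank W.K (T.C (pw X n)) := by
    rw [← C_eq T hn, ← hZ]
    omega
  refine concl (S := S) (L := 3) hX hm₀ hl hn hc ?_
  have h6 : (S.r (pw X m) g₀ Z : ℝ) + S.r (pw X m) g₂ Z + S.r (pw X m) g₃ Z ≤
      finrank W.K (T.C (pw X n)) := by
    exact_mod_cast h5
  refine le_trans ?_ h6
  push_cast
  nlinarith

end Main

end Pool.Agent.P8H28.AT
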