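import Pool.Agent.P8H28.AT.Tri
import Pool.Agent.N996.BP.CSys

/-!
# A line of classes generates a family of index at most two
-/

set_option linter.unusedSectionVars false

open CategoryTheory AlgebraicGeometry

universe u

namespace Pool.Agent.P8H28.AT

open Module
open Pool.Agent.H914 Pool.Agent.H914.VarClass Pool.Agent.H914.VarClass.Obj
  Pool.Agent.H914.WeilCohomology
open Pool.Agent.Y133.Half Pool.Agent.Y133.Half.Sys
open Pool.Agent.N996.BP.Geo (CSys)

variable {k : Type u} [Field k] {𝒱 : VarClass k} {ops : CycleOps 𝒱}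
  {W : WeilCohomology.{u, 0} ops} {S T : Sys W} {P P₀ Q Z Z' X : 𝒱.Obj}

/-! ### Operators of rank one -/

lemma corr_xp0 (x : W.H P) {y : W.H Z} (hy : y ∈ PH W Z 0) (z : W.H P) :
    W.corr (xp W x y) z = W.tr P (x * z) • y := by
  rw [WeilCohomology.corr_apply, xp, mul_assoc, PH.even_comm (PH.map (snd P Z) hy), ← mul_assoc,
    ← map_mul, push_snd]

/-- The even classes `z` on `Z` such that the external product of `u` and `z` belongs to `S`. -/
noncomputable def Gz (S : Sys W) {P : 𝒱.Obj} (u : W.H P) (Z : 𝒱.Obj) :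
    Submodule W.K (W.H Z) where
  carrier := {z | z ∈ PH W Z 0 ∧ xp W u z ∈ S.C (P.prod Z)}
  zero_mem' := ⟨Submodule.zero_mem _, by
    have h : xp W u (0 : W.H Z) = 0 := by rw [xp, map_zero, mul_zero]
    rw [h]; exact Submodule.zero_mem _⟩
  add_mem' := fun {a b} ha hb => ⟨Submodule.add_mem _ ha.1 hb.1, by
    rw [xp_add_right]; exact Submodule.add_mem _ ha.2 hb.2⟩
  smul_mem' := fun r a ha => ⟨Submodule.smul_mem _ _ ha.1, by
    rw [xp_smul_right]; exact Submodule.smul_mem _ _ ha.2⟩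

variable {u : W.H P}

lemma mem_Gz {z : W.H Z} : z ∈ Gz S u Z ↔ z ∈ PH W Z 0 ∧ xp W u z ∈ S.C (P.prod Z) := Iff.rfl

/-- The operator given by an element of `Gz`. -/
lemma Gz.op {z : W.H Z} (hz : z ∈ Gz S u Z) :
    ∃ o ∈ S.Op P Z, ∀ x, o x = W.tr P (u * x) • z :=
  ⟨_, Op.corr hz.2, fun x => corr_xp0 u hz.1 x⟩

lemma xp_mem_of_op {x : W.H P} {z : W.H Z} (hz : z ∈ PH W Z 0) {o : W.H P →ₗ[W.K] W.H Z}
    (ho : o ∈ S.Op P Z) (h : ∀ y, o y = W.tr P (x * y) • z) : xp W x z ∈ S.C (P.prod Z) := by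
  obtain ⟨c, hc, rfl⟩ := mem_Op.1 ho
  have h1 : c - xp W x z = 0 := by
    apply corr_inj
    apply LinearMap.ext
    intro y
    have h2 : W.corr (c - xp W x z) = W.corr c - W.corr (xp W x z) :=
      map_sub (corrL W P Z) _ _
    rw [h2, LinearMap.sub_apply, h, corr_xp0 x hz, sub_self, LinearMap.zero_apply]
  rw [← sub_eq_zero.1 h1]
  exact hc

lemma Gz.mk {z : W.H Z} (hz : z ∈ PH W Z 0) {o : W.H P →ₗ[W.K] W.H Z} (ho : o ∈ S.Op P Z)
    (h : ∀ y, o y = W.tr P (u * y) • z) : z ∈ Gz S u Z := ⟨hz, xp_mem_of_op hz ho h⟩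

/-- The elements of `Gz` are stable under the operators of the system. -/
lemma Gz.apply {z : W.H Z} (hz : z ∈ Gz S u Z) {w : W.H Z →ₗ[W.K] W.H Z'} (hw : w ∈ S.Op Z Z') :
    w z ∈ Gz S u Z' := by
  obtain ⟨o, ho, h⟩ := Gz.op hz
  refine Gz.mk (Op.ev hw _ _ hz.1) (Op.comp hw ho) fun y => ?_
  rw [LinearMap.comp_apply, h, map_smul]

/-- Push-forwards are operators of the system. -/
lemma op_push (f : Z ⟶ Z') : W.push f ∈ S.Op Z Z' := by
  have h : W.corr (W.push (Obj.lift (𝟙 Z) f) (1 : W.H Z)) = W.push f := by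
    apply LinearMap.ext
    intro a
    rw [WeilCohomology.corr_apply, ← W.push_mul, one_mul, ← W.map_comp, ← W.push_comp,
      Obj.lift_fst, Obj.lift_snd, W.map_id]
  rw [← h]
  exact Op.corr (S.push _ (S.one Z))

/-- Multiplications are operators of the system. -/
lemma op_mul {s : W.H Z} (hs : s ∈ S.C Z) :
    ∃ o ∈ S.Op Z Z, ∀ x, o x = s * x :=
  ⟨_, Op.corr (S.push (diag Z) hs), fun x => W.corr_diag s x⟩

lemma Gz.map {z : W.H Z} (hz : z ∈ Gz S u Z) (f : Z' ⟶ Z) : W.map f z ∈ Gz S u Z' :=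
  Gz.apply hz (Op.map f)

lemma Gz.push {z : W.H Z} (hz : z ∈ Gz S u Z) (f : Z ⟶ Z') : W.push f z ∈ Gz S u Z' :=
  Gz.apply hz (op_push f)

lemma Gz.mul_left {z : W.H Z} (hz : z ∈ Gz S u Z) {s : W.H Z} (hs : s ∈ S.C Z) :
    s * z ∈ Gz S u Z := by
  obtain ⟨o, ho, h⟩ := op_mul hs
  rw [← h]
  exact Gz.apply hz ho

lemma Gz.mul_right {z : W.H Z} (hz : z ∈ Gz S u Z) {s : W.H Z} (hs : s ∈ S.C Z) :
    z * s ∈ Gz S u Z := by
  rw [PH.even_comm hz.1]
  exact Gz.mul_left hz hs

/-- The adjoint of the operator given by an element of `Gz`. -/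
lemma Gz.adj {z : W.H Z} (hz : z ∈ Gz S u Z) :
    ∃ o ∈ S.Op Z P, ∀ y, o y = W.tr Z (z * y) • u := by
  obtain ⟨o, ho, h⟩ := Gz.op hz
  obtain ⟨o', ho', hadj⟩ := Op.exists_adj ho
  refine ⟨o', ho', fun y => ?_⟩
  apply W.tr_ext
  intro c
  have h1 : ∀ c, W.tr P (c * o' y) = W.tr P (u * c) * W.tr Z (z * y) := by
    intro c
    rw [← hadj, h, smul_mul_assoc, map_smul, smul_eq_mul]
  -- the class `o' y` is even
  have h2 : o' y ∈ PH W P 0 := by
    refine gr_induction (W.isInternal Z) (p := fun y => o' y ∈ PH W P 0) ?_ ?_ y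
    · intro i y hy
      have hy' := PH.of (W := W) hy
      rcases Nat.mod_two_eq_zero_or_one i with h0 | h0
      · exact Op.ev ho' _ _ (PH.of' (b := 0) (by omega) hy)
      · have h3 : o' y = 0 := by
          apply W.nondeg
          intro b
          have h4 : o' y ∈ PH W P i := Op.ev ho' _ _ hy'
          have h5 : W.tr Z (z * y) = 0 := by
            have h6 := PH.mul hz.1 hy'
            rw [zero_add] at h6
            exact PH.tr_odd h6 h0
          refine gr_induction (W.isInternal P) (p := fun b => W.tr P (o' y * b) = 0) ?_ ?_ b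
          · intro j b hb
            have hb' := PH.of (W := W) hb
            rw [PH.comm h4 hb', map_smul]
            have h7 : W.tr P (b * o' y) = 0 := by
              rw [← hadj, h, smul_mul_assoc, map_smul, h5, smul_zero]
            rw [h7, smul_zero]
          · intro a b ha hb
            rw [mul_add, map_add, ha, hb, add_zero]
        rw [h3]
        exact Submodule.zero_mem _
    · intro a b ha hb
      rw [map_add]
      exact Submodule.add_mem _ ha hb
  rw [PH.even_comm h2, h1, smul_mul_assoc, map_smul, smul_eq_mul, mul_comm]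

/-- Products of two elements of `Gz`. -/
lemma Gz.mul (ha : ∃ a ∈ S.Op P P, W.tr P (u * a u) ≠ 0) {z z' : W.H Z}
    (hz : z ∈ Gz S u Z) (hz' : z' ∈ Gz S u Z) : z * z' ∈ S.C Z := by
  obtain ⟨a, ha, hau⟩ := ha
  obtain ⟨o, ho, h⟩ := Gz.adj hz
  obtain ⟨o', ho', h'⟩ := Gz.op hz'
  have h1 : (W.tr P (u * a u))⁻¹ • (o' ∘ₗ a ∘ₗ o) ∈ S.Op Z Z :=
    Submodule.smul_mem _ _ (Op.comp ho' (Op.comp ha ho))
  have h2 : xp W z z' ∈ S.C (Z.prod Z) := by
    refine xp_mem_of_op hz'.1 h1 fun y => ?_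
    rw [LinearMap.smul_apply, LinearMap.comp_apply, LinearMap.comp_apply, h, map_smul, map_smul,
      h', smul_smul, smul_smul]
    congr 1
    field_simp
  have h3 := S.map (diag Z) h2
  rw [map_xp] at h3
  have e1 : diag Z ≫ fst Z Z = 𝟙 Z := Obj.lift_fst _ _
  have e2 : diag Z ≫ snd Z Z = 𝟙 Z := Obj.lift_snd _ _
  rwa [e1, e2, W.map_id, W.map_id] at h3

/-! ### The consequences of a line -/

section Line

variable (hST : ∀ X, S.C X ≤ T.C X) (hN : ∀ Z, S.Num Z = ⊥) (hT : ∀ Z, Nondeg T Z)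

include hST hN hT

/-- The properties of the class of a line. -/
theorem Line.props (ℓ : Line S T P) : ℓ.u ∈ Gz S ℓ.u P ∧
    ∃ a ∈ S.Op P P, W.tr P (ℓ.u * a ℓ.u) ≠ 0 := by
  obtain ⟨u, φ, h1, hop, hmem, hnot, hgen⟩ := ℓ
  change u ∈ Gz S u P ∧ ∃ a ∈ S.Op P P, W.tr P (u * a u) ≠ 0
  set g : Module.End W.K (W.H P) := φ.smulRight u with hg
  have hev : u ∈ PH W P 0 := T.even hmem
  have hu0 : u ≠ 0 := fun h => hnot (h ▸ Submodule.zero_mem _)
  -- the linear form on the classes of `S`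
  have hφS : ∀ s ∈ S.C P, φ s = 0 := by
    intro s hs
    by_contra h
    apply hnot
    have h2 : g s ∈ S.C P := stb_self g hop s hs
    rw [hg, LinearMap.smulRight_apply] at h2
    exact (Submodule.smul_mem_iff _ h).1 h2
  -- the dual class
  obtain ⟨f, hf⟩ := pd_surjective (W := W) (X := P) φ
  have hf' : ∀ x, W.tr P (f * x) = φ x := fun x =>
    congrArg (fun F : Module.Dual W.K (W.H P) => F x) hf
  obtain ⟨g', hg'm, hadj⟩ := S.exists_adj' hop
  have hg' : ∀ b, g' b = W.tr P (b * u) • f := by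
    intro b
    apply W.tr_ext
    intro c
    rw [hadj, hg, LinearMap.smulRight_apply, mul_smul_comm, map_smul, smul_mul_assoc, map_smul,
      hf', smul_eq_mul, smul_eq_mul, mul_comm]
  obtain ⟨y, hyT, hy⟩ : ∃ y ∈ T.C P, W.tr P (u * y) ≠ 0 := by
    by_contra hcon
    push Not at hcon
    exact hu0 (hT P u hmem hcon)
  have hfT : f ∈ T.C P := by
    have h2 : g' y ∈ T.C P := stb_of_le hST g' hg'm y hyT
    rw [hg', ← PH.even_comm hev] at h2
    exact (Submodule.smul_mem_iff _ hy).1 h2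
  have hf0 : f ≠ 0 := by
    rintro rfl
    have := hf' u
    rw [zero_mul, map_zero, h1] at this
    exact zero_ne_one this
  have hfS : f ∉ S.C P := by
    intro h
    have h2 : f ∈ S.Num P := ⟨h, fun s hs => by rw [hf', hφS s hs]⟩
    rw [hN P, Submodule.mem_bot] at h2
    exact hf0 h2
  have huS : ∀ s ∈ S.C P, W.tr P (s * u) = 0 := by
    intro s hs
    by_contra h
    apply hfS
    have h2 : g' s ∈ S.C P := stb_self g' hg'm s hs
    rw [hg'] at h2
    exact (Submodule.smul_mem_iff _ h).1 h2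
  -- `f` is an image of `u`
  obtain ⟨s, hs, w, hw, hsw⟩ := Submodule.mem_sup.1 (hgen hfT)
  obtain ⟨v, hv, rfl⟩ := mem_orb.1 hw
  have hvS : ∀ v ∈ S.Op P P, ∀ s' ∈ S.C P, W.tr P (v u * s') = 0 := by
    intro v hv s' hs'
    obtain ⟨v', hv', hadj'⟩ := Op.exists_adj hv
    rw [hadj', PH.even_comm hev]
    exact huS _ (stb_self v' hv' s' hs')
  have hs0 : s = 0 := by
    have h2 : s ∈ S.Num P := ⟨hs, fun s' hs' => by
      have h3 : s = f - v u := by rw [← hsw, add_sub_cancel_right]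
      rw [h3, sub_mul, map_sub, hf', hφS s' hs', hvS v hv s' hs', sub_zero]⟩
    rwa [hN P, Submodule.mem_bot] at h2
  have hfv : f = v u := by rw [← hsw, hs0, zero_add]
  -- an operator which maps `f` to a multiple of `u`
  obtain ⟨a, ha, hφa⟩ : ∃ a ∈ S.Op P P, φ (a f) ≠ 0 := by
    by_contra hcon
    push Not at hcon
    have hz : v ∘ₗ g ∈ S.Op P P := Op.comp hv hop
    have hzx : ∀ x, (v ∘ₗ g) x = φ x • f := by
      intro x
      rw [LinearMap.comp_apply, hg, LinearMap.smulRight_apply, map_smul, hfv]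
    have htr : ∀ b ∈ S.Op P P, LinearMap.trace W.K (W.H P)
        (par (W.isInternal P) ∘ₗ (v ∘ₗ g) ∘ₗ b) = 0 := by
      intro b hb
      have hzb : (v ∘ₗ g) ∘ₗ b ∈ S.Op P P := Op.comp hz hb
      have hnil : IsNilpotent ((v ∘ₗ g) ∘ₗ b : Module.End W.K (W.H P)) := by
        refine ⟨2, ?_⟩
        rw [pow_two]
        apply LinearMap.ext
        intro x
        change ((v ∘ₗ g) ∘ₗ b) (((v ∘ₗ g) ∘ₗ b) x) = 0
        rw [LinearMap.comp_apply, LinearMap.comp_apply (v ∘ₗ g) b x, hzx, hzx, map_smul, map_smul,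
          hcon b hb, smul_zero, zero_smul]
      have h2 : IsNilpotent (par (W.isInternal P) * ((v ∘ₗ g) ∘ₗ b) : Module.End W.K (W.H P)) := by
        obtain ⟨n, hn⟩ := hnil
        refine ⟨n, ?_⟩
        have hc : Commute (par (W.isInternal P) : Module.End W.K (W.H P)) ((v ∘ₗ g) ∘ₗ b) :=
          (Op.ev hzb).par_comm
        rw [hc.mul_pow, hn, mul_zero]
      exact (LinearMap.isNilpotent_trace_of_isNilpotent h2).eq_zero
    obtain ⟨c, hc, hcz⟩ := mem_Op.1 hz
    have h3 : c ∈ S.Num (P.prod P) := by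
      refine ⟨hc, fun d hd => ?_⟩
      have h4 := htr _ (Op.corr (S.map (swap P P) hd))
      rw [← hcz, trace_corr_corr, swap_swap] at h4
      exact h4
    rw [hN, Submodule.mem_bot] at h3
    apply hf0
    have h5 := hzx u
    rw [← hcz, h3, W.corr_zero, LinearMap.zero_apply, h1, one_smul] at h5
    exact h5.symm
  refine ⟨?_, ?_⟩
  · have h2 : (φ (a f))⁻¹ • (g ∘ₗ a ∘ₗ g') ∈ S.Op P P :=
      Submodule.smul_mem _ _ (Op.comp hop (Op.comp ha hg'm))
    refine Gz.mk hev h2 fun x => ?_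
    rw [LinearMap.smul_apply, LinearMap.comp_apply, LinearMap.comp_apply, hg', map_smul, map_smul,
      hg, LinearMap.smulRight_apply, smul_smul, smul_smul, PH.even_comm hev]
    congr 1
    field_simp
  · obtain ⟨s', hs', w', hw', hsw'⟩ := Submodule.mem_sup.1 (hgen hyT)
    obtain ⟨v', hv', rfl⟩ := mem_orb.1 hw'
    refine ⟨v', hv', fun h => hy ?_⟩
    rw [← hsw', mul_add, map_add, h, add_zero, PH.even_comm hev]
    exact huS s' hs'

/-- The classes of `Gz` belong to `T`. -/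
lemma Gz.le (ℓ : Line S T P) : Gz S ℓ.u Z ≤ T.C Z := by
  intro z hz
  have hu0 : ℓ.u ≠ 0 := fun h => ℓ.notMem (h ▸ Submodule.zero_mem _)
  obtain ⟨y, hyT, hy⟩ : ∃ y ∈ T.C P, W.tr P (ℓ.u * y) ≠ 0 := by
    by_contra hcon
    push Not at hcon
    exact hu0 (hT P _ ℓ.mem hcon)
  obtain ⟨o, ho, h⟩ := Gz.op hz
  have h2 : o y ∈ T.C Z := Op.apply hST ho hyT
  rw [h] at h2
  exact (Submodule.smul_mem_iff _ hy).1 h2

/-- The family of the classes of `S` and of `Gz`. -/
noncomputable def famZ (ℓ : Line S T P) (X : 𝒱.Obj) : CSys W X where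
  C n := S.C (pw X n) ⊔ Gz S ℓ.u (pw X n)
  mul {n c d} hc hd := by
    obtain ⟨-, ha⟩ := ℓ.props hST hN hT
    obtain ⟨s, hs, z, hz, rfl⟩ := Submodule.mem_sup.1 hc
    obtain ⟨s', hs', z', hz', rfl⟩ := Submodule.mem_sup.1 hd
    rw [add_mul, mul_add, mul_add]
    refine Submodule.add_mem _ (Submodule.add_mem_sup (S.mul hs hs') (Gz.mul_left hz' hs)) ?_
    rw [add_comm]
    exact Submodule.add_mem_sup (Gz.mul ha hz hz') (Gz.mul_right hz hs')
  map {n m} f _ c hc := by
    obtain ⟨s, hs, z, hz, rfl⟩ := Submodule.mem_sup.1 hc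
    rw [map_add]
    exact Submodule.add_mem_sup (S.map f hs) (Gz.map hz f)
  push {n} c hc := by
    obtain ⟨s, hs, z, hz, rfl⟩ := Submodule.mem_sup.1 hc
    rw [map_add]
    exact Submodule.add_mem_sup (S.push _ hs) (Gz.push hz _)

/-- The dimension of `Gz`. -/
theorem finrank_Gz (ℓ : Line S T P) (Y : 𝒱.Obj) :
    finrank W.K (Gz S ℓ.u (Y.prod Y)) ≤ finrank W.K (S.C (Y.prod Y)) := by
  obtain ⟨u, φ, h1, hop, hmem, hnot, hgen⟩ := ℓ
  change finrank W.K (Gz S u (Y.prod Y)) ≤ _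
  have hu0 : u ≠ 0 := fun h => hnot (h ▸ Submodule.zero_mem _)
  set g : Module.End W.K (W.H P) := φ.smulRight u with hg
  have hgg : g ∘ₗ g = g := by
    apply LinearMap.ext
    intro x
    rw [LinearMap.comp_apply, hg, LinearMap.smulRight_apply, LinearMap.smulRight_apply, map_smul,
      h1, smul_eq_mul, mul_one]
  have hgu : g u = u := by rw [hg, LinearMap.smulRight_apply, h1, one_smul]
  have hrank : finrank W.K (LinearMap.range g) ≤ 1 := by
    have h2 : LinearMap.range g ≤ Submodule.span W.K {u} := by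
      rintro _ ⟨x, rfl⟩
      rw [hg, LinearMap.smulRight_apply]
      exact Submodule.smul_mem _ _ (Submodule.mem_span_singleton_self u)
    refine (Submodule.finrank_mono h2).trans ?_
    refine (finrank_span_le_card ({u} : Set (W.H P))).trans ?_
    simp
  have h2 := S.r_le_rank hop hgg Y
  rw [← a_eq (hN (Y.prod Y))]
  refine le_trans ?_ (h2.trans ((Nat.mul_le_mul_right _ hrank).trans (le_of_eq (one_mul _))))
  let Λ : Gz S u (Y.prod Y) →ₗ[W.K] LinearMap.range (S.F (P.prod (Y.prod Y)) (extOp W g 1)) :=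
    { toFun := fun z => ⟨S.F (P.prod (Y.prod Y)) (extOp W g 1) ⟨xp W u z, z.2.2⟩, ⟨_, rfl⟩⟩
      map_add' := fun a b => by
        apply Subtype.ext
        apply LinearMap.ext
        intro d
        change W.tr _ (extOp W g 1 (xp W u (a.1 + b.1)) * d.1) =
          W.tr _ (extOp W g 1 (xp W u a.1) * d.1) + W.tr _ (extOp W g 1 (xp W u b.1) * d.1)
        rw [xp_add_right, map_add, add_mul, map_add]
      map_smul' := fun r a => by
        apply Subtype.ext
        apply LinearMap.ext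
        intro d
        change W.tr _ (extOp W g 1 (xp W u (r • a.1)) * d.1) =
          r • W.tr _ (extOp W g 1 (xp W u a.1) * d.1)
        rw [xp_smul_right, map_smul, smul_mul_assoc, map_smul] }
  have hinj : Function.Injective Λ := by
    intro a b hab
    have h0 : Λ (a - b) = 0 := by rw [map_sub, hab, sub_self]
    have h3 : xp W u (a - b).1 ∈ S.Num (P.prod (Y.prod Y)) := by
      refine ⟨(a - b).2.2, fun d hd => ?_⟩
      have h4 : W.tr _ (extOp W g 1 (xp W u (a - b).1) * d) = 0 :=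
        congrArg (fun F : LinearMap.range (S.F (P.prod (Y.prod Y)) (extOp W g 1)) =>
          (F : S.C (P.prod (Y.prod Y)) →ₗ[W.K] W.K) ⟨d, hd⟩) h0
      rwa [extOp_xp, hgu, Module.End.one_apply] at h4
    rw [hN, Submodule.mem_bot] at h3
    have h5 : (a - b).1 = 0 := xp_eq_zero_left hu0 h3
    exact sub_eq_zero.1 (Subtype.ext h5)
  exact LinearMap.finrank_le_finrank_of_injective hinj

/-- **The index is at most two.** -/
theorem Line.two (ℓ : Line S T P) (hfam : ∀ n, T.C (pw X n) ≤ (famZ hST hN hT ℓ X).C n) (l : ℕ) :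
    finrank W.K (T.C (pw X (l + l + 1))) ≤ 2 * finrank W.K (S.C (pw X (l + l + 1))) := by
  have h1 : ∀ R : Sys W, finrank W.K (R.C ((pw X l).prod (pw X l))) =
      finrank W.K (R.C (pw X (l + l + 1))) := fun R => R.finrank_C_iso (pwAdd X l l)
  rw [← h1 T, ← h1 S]
  have h2 : T.C ((pw X l).prod (pw X l)) ≤ S.C ((pw X l).prod (pw X l)) ⊔
      Gz S ℓ.u ((pw X l).prod (pw X l)) := by
    intro c hc
    set θ := pwAdd X l l
    have h3 := hfam (l + l + 1) (T.map θ.inv hc)
    obtain ⟨s, hs, z, hz, hsz⟩ := Submodule.mem_sup.1 h3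
    have h4 := congrArg (W.map θ.hom) hsz
    rw [map_add, ← W.map_comp, θ.hom_inv_id, W.map_id] at h4
    rw [← h4]
    exact Submodule.add_mem_sup (S.map _ hs) (Gz.map hz _)
  refine (Submodule.finrank_mono h2).trans ?_
  have h5 := Submodule.finrank_add_le_finrank_add_finrank (S.C ((pw X l).prod (pw X l)))
    (Gz S ℓ.u ((pw X l).prod (pw X l)))
  have h6 := finrank_Gz hST hN hT ℓ (pw X l)
  omega

end Line

end Pool.Agent.P8H28.AT
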